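import Mathlib

/-!
Components of polynomials with respect to weights in a partially ordered monoid.
-/

set_option autoImplicit false
set_option linter.unusedSectionVars false

namespace Pool.Agent.Q248.BDP

open MvPolynomial

noncomputable section

variable {K : Type} [Field K] {σ β : Type} [Fintype β] [DecidableEq β]

/-- the component of weight `κ` -/
def cmp (wt : σ → β → ℕ) (κ : β → ℕ) (G : MvPolynomial σ K) : MvPolynomial σ K :=
  weightedHomogeneousComponent wt κ G

lemma coeff_cmp (wt : σ → β → ℕ) (κ : β → ℕ) (G : MvPolynomial σ K) (d : σ →₀ ℕ) :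
    coeff d (cmp wt κ G) = if Finsupp.weight wt d = κ then coeff d G else 0 := by
  unfold cmp
  rw [coeff_weightedHomogeneousComponent]

lemma cmp_add (wt : σ → β → ℕ) (κ : β → ℕ) (G H : MvPolynomial σ K) :
    cmp wt κ (G + H) = cmp wt κ G + cmp wt κ H := map_add _ _ _

lemma cmp_zero (wt : σ → β → ℕ) (κ : β → ℕ) : cmp wt κ (0 : MvPolynomial σ K) = 0 := map_zero _

lemma cmp_sum {ι : Type} (s : Finset ι) (wt : σ → β → ℕ) (κ : β → ℕ)
    (G : ι → MvPolynomial σ K) : cmp wt κ (∑ i ∈ s, G i) = ∑ i ∈ s, cmp wt κ (G i) :=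
  map_sum _ _ _

open Classical in
/-- components of the product with a monomial -/
lemma cmp_monomial_mul (wt : σ → β → ℕ) (κ : β → ℕ) (α : σ →₀ ℕ) (c : K)
    (H : MvPolynomial σ K) :
    cmp wt κ (monomial α c * H) = if Finsupp.weight wt α ≤ κ then
      monomial α c * cmp wt (κ - Finsupp.weight wt α) H else 0 := by
  classical
  ext d
  rw [coeff_cmp, coeff_monomial_mul']
  by_cases hα : α ≤ d
  · have h1 : Finsupp.weight wt d = Finsupp.weight wt (d - α) + Finsupp.weight wt α := by
      rw [← map_add, tsub_add_cancel_of_le hα]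
    rw [if_pos hα]
    by_cases hκ : Finsupp.weight wt α ≤ κ
    · rw [if_pos hκ, coeff_monomial_mul', if_pos hα, coeff_cmp]
      by_cases h2 : Finsupp.weight wt d = κ
      · rw [if_pos h2, if_pos]
        rw [← h2, h1, add_tsub_cancel_right]
      · rw [if_neg h2, if_neg, mul_zero]
        intro h3
        apply h2
        rw [h1, h3, tsub_add_cancel_of_le hκ]
    · rw [if_neg hκ, coeff_zero, if_neg]
      intro h2
      apply hκ
      rw [← h2, h1]
      exact le_add_self
  · rw [if_neg hα, ite_self]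
    by_cases hκ : Finsupp.weight wt α ≤ κ
    · rw [if_pos hκ, coeff_monomial_mul', if_neg hα]
    · rw [if_neg hκ, coeff_zero]

/-- components of the product with a homogeneous polynomial -/
lemma cmp_hom_mul {wt : σ → β → ℕ} {e : β → ℕ} {F : MvPolynomial σ K}
    (hF : IsWeightedHomogeneous wt F e) (κ : β → ℕ) (G : MvPolynomial σ K) :
    cmp wt (κ + e) (F * G) = F * cmp wt κ G := by
  conv_lhs => rw [as_sum F]
  conv_rhs => rw [as_sum F]
  rw [Finset.sum_mul, Finset.sum_mul, cmp_sum]
  refine Finset.sum_congr rfl fun α hα => ?_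
  have h1 : Finsupp.weight wt α = e := hF (mem_support_iff.1 hα)
  rw [cmp_monomial_mul, h1, if_pos le_add_self, add_tsub_cancel_right]

/-- a polynomial is the sum of its components -/
lemma sum_cmp (wt : σ → β → ℕ) (G : MvPolynomial σ K) :
    ∑ κ ∈ G.support.image (Finsupp.weight wt), cmp wt κ G = G := by
  classical
  ext d
  rw [coeff_sum]
  simp only [coeff_cmp]
  rw [Finset.sum_ite_eq]
  split_ifs with h
  · rfl
  · by_contra hc
    exact h (Finset.mem_image_of_mem _ (mem_support_iff.2 (Ne.symm hc)))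

/-- components of the elements of an ideal with homogeneous generators -/
lemma cmp_mem {ι : Type} {wt : σ → β → ℕ} {F : ι → MvPolynomial σ K} {e : ι → β → ℕ}
    (hF : ∀ i, IsWeightedHomogeneous wt (F i) (e i)) {J : Set ι} {H : MvPolynomial σ K}
    (hH : H ∈ Ideal.span (F '' J)) (κ : β → ℕ) :
    cmp wt κ H ∈ Ideal.span (F '' {i | i ∈ J ∧ e i ≤ κ}) := by
  classical
  revert κ
  refine Submodule.span_induction (p := fun H _ => ∀ κ, cmp wt κ H ∈
    Ideal.span (F '' {i | i ∈ J ∧ e i ≤ κ})) ?_ ?_ ?_ ?_ hH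
  · rintro _ ⟨i, hi, rfl⟩ κ
    by_cases h : e i ≤ κ
    · have h1 := cmp_hom_mul (hF i) (κ - e i) (1 : MvPolynomial σ K)
      rw [mul_one, tsub_add_cancel_of_le h] at h1
      rw [h1]
      exact Ideal.mul_mem_right _ _ (Ideal.subset_span ⟨i, ⟨hi, h⟩, rfl⟩)
    · have h1 : cmp wt κ (F i) = 0 := by
        ext d
        rw [coeff_cmp, coeff_zero]
        split_ifs with h2
        · by_contra h3
          apply h
          rw [← hF i h3, h2]
        · rfl
      rw [h1]
      exact Submodule.zero_mem _
  · intro κ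
    rw [cmp_zero]
    exact Submodule.zero_mem _
  · intro x y _ _ hx hy κ
    rw [cmp_add]
    exact Submodule.add_mem _ (hx κ) (hy κ)
  · intro a x _ hx κ
    rw [smul_eq_mul]
    have ha : a * x = ∑ α ∈ a.support, monomial α (coeff α a) * x := by
      rw [← Finset.sum_mul, ← as_sum]
    rw [ha, cmp_sum]
    refine Submodule.sum_mem _ fun α _ => ?_
    rw [cmp_monomial_mul]
    split_ifs with h
    · refine Ideal.mul_mem_left _ _ ?_
      refine Ideal.span_mono (Set.image_mono ?_) (hx (κ - Finsupp.weight wt α))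
      rintro i ⟨hi1, hi2⟩
      exact ⟨hi1, hi2.trans tsub_le_self⟩
    · exact Submodule.zero_mem _

end

end Pool.Agent.Q248.BDP
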