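import Mathlib

/-!
Large families of sets of which only few are contained in a set of moderate size.
-/

set_option autoImplicit false
set_option linter.unusedSectionVars false

namespace Pool.Agent.Q248.BDP

open Finset

/-- the places at which two words agree -/
def agr {L q : ℕ} (f g : Fin L → Fin q) : Finset (Fin L) := univ.filter fun x => f x = g x

lemma card_cyl {L q : ℕ} (g : Fin L → Fin q) (A : Finset (Fin L)) :
    (univ.filter fun f : Fin L → Fin q => ∀ x ∈ A, f x = g x).card = q ^ (L - A.card) := by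
  classical
  have h1 : (univ.filter fun f : Fin L → Fin q => ∀ x ∈ A, f x = g x) =
      Fintype.piFinset fun x => if x ∈ A then ({g x} : Finset (Fin q)) else univ := by
    ext f
    rw [mem_filter, Fintype.mem_piFinset]
    constructor
    · rintro ⟨-, h⟩ x
      split_ifs with hx
      · exact mem_singleton.2 (h x hx)
      · exact mem_univ _
    · intro h
      refine ⟨mem_univ _, fun x hx => ?_⟩
      have := h x
      rw [if_pos hx] at this
      exact mem_singleton.1 this
  rw [h1, Fintype.card_piFinset]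
  have h2 : ∀ x, (if x ∈ A then ({g x} : Finset (Fin q)) else univ).card =
      if x ∈ A then 1 else q := by
    intro x
    split_ifs
    · exact card_singleton _
    · rw [card_univ, Fintype.card_fin]
  rw [prod_congr rfl fun x _ => h2 x, prod_ite, prod_const_one, one_mul, prod_const]
  congr 1
  rw [filter_not, card_sdiff_of_subset (filter_subset _ _), card_univ, Fintype.card_fin]
  congr 2
  ext x
  simp

/-- a code with few agreements -/
lemma exists_code (L q t : ℕ) (ht : t ≤ L) :
    ∃ C : Finset (Fin L → Fin q), (∀ f ∈ C, ∀ g ∈ C, f ≠ g → (agr f g).card < t) ∧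
      q ^ L ≤ C.card * (L.choose t * q ^ (L - t)) := by
  classical
  have hne : ((univ : Finset (Finset (Fin L → Fin q))).filter fun C =>
      ∀ f ∈ C, ∀ g ∈ C, f ≠ g → (agr f g).card < t).Nonempty :=
    ⟨∅, mem_filter.2 ⟨mem_univ _, fun f hf => absurd hf (notMem_empty f)⟩⟩
  obtain ⟨C, hC, hmax⟩ := exists_max_image _ card hne
  have hC := (mem_filter.1 hC).2
  refine ⟨C, hC, ?_⟩
  -- every word is close to a word of the code
  have hcov : ∀ f : Fin L → Fin q, ∃ g ∈ C, t ≤ (agr f g).card := by
    intro f
    by_contra hcon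
    push Not at hcon
    have hf : f ∉ C := by
      intro hf
      have h1 := hcon f hf
      have h2 : agr f f = univ := by
        unfold agr
        exact filter_true_of_mem fun _ _ => rfl
      rw [h2, card_univ, Fintype.card_fin] at h1
      omega
    have h1 := hmax (insert f C) (mem_filter.2 ⟨mem_univ _, ?_⟩)
    · rw [card_insert_of_notMem hf] at h1
      omega
    · intro a ha b hb hab
      rw [mem_insert] at ha hb
      rcases ha with rfl | ha
      · rcases hb with rfl | hb
        · exact absurd rfl hab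
        · exact hcon b hb
      · rcases hb with rfl | hb
        · have h2 := hcon a ha
          have h3 : agr a b = agr b a := by
            unfold agr
            exact filter_congr fun x _ => eq_comm
          rw [h3]
          exact h2
        · exact hC a ha b hb hab
  have hsub : (univ : Finset (Fin L → Fin q)) ⊆ C.biUnion fun g =>
      ((univ : Finset (Fin L)).powersetCard t).biUnion fun A =>
        univ.filter fun f => ∀ x ∈ A, f x = g x := by
    intro f _
    obtain ⟨g, hg, hfg⟩ := hcov f
    obtain ⟨A, hA, hAc⟩ := exists_subset_card_eq hfg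
    rw [mem_biUnion]
    refine ⟨g, hg, ?_⟩
    rw [mem_biUnion]
    refine ⟨A, mem_powersetCard.2 ⟨subset_univ _, hAc⟩, mem_filter.2 ⟨mem_univ _, fun x hx => ?_⟩⟩
    exact (mem_filter.1 (hA hx)).2
  have h1 := card_le_card hsub
  rw [card_univ, Fintype.card_fun, Fintype.card_fin, Fintype.card_fin] at h1
  refine h1.trans (card_biUnion_le_card_mul _ _ _ fun g _ => ?_)
  have h2 : ((univ : Finset (Fin L)).powersetCard t).card = L.choose t := by
    rw [card_powersetCard, card_univ, Fintype.card_fin]
  rw [← h2]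
  refine card_biUnion_le_card_mul _ _ _ fun A hA => ?_
  rw [card_cyl, (mem_powersetCard.1 hA).2]

/-- the graph of a word -/
def gr {L q : ℕ} (f : Fin L → Fin q) : Finset (Fin (L * q)) :=
  univ.image fun x => finProdFinEquiv (x, f x)

lemma mem_gr {L q : ℕ} {f : Fin L → Fin q} {a : Fin (L * q)} :
    a ∈ gr f ↔ ∃ x, finProdFinEquiv (x, f x) = a := by
  unfold gr
  rw [mem_image]
  constructor
  · rintro ⟨x, -, h⟩; exact ⟨x, h⟩
  · rintro ⟨x, h⟩; exact ⟨x, mem_univ x, h⟩

lemma card_gr {L q : ℕ} (f : Fin L → Fin q) : (gr f).card = L := by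
  unfold gr
  rw [card_image_of_injective, card_univ, Fintype.card_fin]
  intro x y h
  have := finProdFinEquiv.injective h
  exact (Prod.mk.inj this).1

lemma gr_inter {L q : ℕ} (f g : Fin L → Fin q) : (gr f ∩ gr g).card ≤ (agr f g).card := by
  classical
  have hsub : gr f ∩ gr g ⊆ (agr f g).image fun x => finProdFinEquiv (x, f x) := by
    intro a ha
    rw [mem_inter, mem_gr, mem_gr] at ha
    obtain ⟨⟨x, hx⟩, ⟨y, hy⟩⟩ := ha
    have h1 := finProdFinEquiv.injective (hx.trans hy.symm)
    have h2 := Prod.mk.inj h1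
    obtain ⟨rfl, h3⟩ := h2
    exact mem_image.2 ⟨x, mem_filter.2 ⟨mem_univ x, h3⟩, hx⟩
  exact (card_le_card hsub).trans card_image_le

/-- the union of some of the graphs is large -/
lemma card_union {L q m t : ℕ} (ht : 2 * m * (t - 1) ≤ L) {C : Finset (Fin L → Fin q)}
    (hC : ∀ f ∈ C, ∀ g ∈ C, f ≠ g → (agr f g).card < t) (A : Finset (Fin L → Fin q)) :
    A ⊆ C → A.card ≤ m + 1 → A.card * L ≤ 2 * (A.biUnion gr).card := by
  classical
  induction A using Finset.induction_on with
  | empty => intro _ _; simp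
  | insert f A hf ih =>
    intro hA hm
    rw [card_insert_of_notMem hf] at hm ⊢
    have hAC : A ⊆ C := (subset_insert f A).trans hA
    have h1 := ih hAC (by omega)
    have hfC : f ∈ C := hA (mem_insert_self f A)
    rw [biUnion_insert]
    have h2 := card_union_add_card_inter (gr f) (A.biUnion gr)
    rw [card_gr] at h2
    have h3 : (gr f ∩ A.biUnion gr).card ≤ A.card * (t - 1) := by
      rw [inter_biUnion]
      refine card_biUnion_le_card_mul _ _ _ fun g hg => ?_
      have hne : f ≠ g := fun h => hf (h ▸ hg)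
      have h4 := gr_inter f g
      have h5 := hC f hfC g (hAC hg) hne
      omega
    have h4 : A.card * (t - 1) ≤ m * (t - 1) := Nat.mul_le_mul_right _ (by omega)
    have h5 : 2 * m * (t - 1) = 2 * (m * (t - 1)) := by ring
    rw [add_mul, one_mul]
    omega

/-- **Exponentially many sets of which at most `m` are contained in a set of moderate size.** -/
theorem exists_family {κ L m : ℕ} (hκ : 1 ≤ κ) (hm : m = 4 * κ) (hL : 1 ≤ L) :
    ∃ T : Fin (2 ^ L) → Finset (Fin (L * 16 ^ m)), (∀ i, (T i).card = L) ∧
      ∀ S : Finset (Fin (L * 16 ^ m)), S.card ≤ 2 * κ * L →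
        (univ.filter fun i => T i ⊆ S).card ≤ m := by
  classical
  have hm1 : 1 ≤ m := by omega
  obtain ⟨t, ht⟩ : ∃ t, t = L / (2 * m) + 1 := ⟨_, rfl⟩
  have ht1 : 2 * m * (t - 1) ≤ L := by
    rw [ht, Nat.add_sub_cancel]
    exact Nat.mul_div_le L (2 * m)
  have htL : t ≤ L := by
    rcases Nat.lt_or_ge L 2 with h | h
    · have hL1 : L = 1 := by omega
      rw [ht, hL1, Nat.div_eq_of_lt (by omega)]
    · have h1 : L / (2 * m) ≤ L / 2 := Nat.div_le_div_left (by omega) (by norm_num)
      omega
  have ht2 : L ≤ 2 * m * t := by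
    rw [ht]
    exact (Nat.lt_mul_div_succ L (by omega)).le
  obtain ⟨C, hC, hcard⟩ := exists_code L (16 ^ m) t htL
  have hCc : 2 ^ L ≤ C.card := by
    have hpos : 0 < (16 ^ m) ^ (L - t) := Nat.pow_pos (Nat.pow_pos (by norm_num))
    have h1 : (16 ^ m) ^ t * (16 ^ m) ^ (L - t) ≤ (C.card * L.choose t) * (16 ^ m) ^ (L - t) := by
      rw [← pow_add, Nat.add_sub_cancel' htL, mul_assoc]
      exact hcard
    have h2 := Nat.le_of_mul_le_mul_right h1 hpos
    have h3 : L.choose t ≤ 2 ^ L := Nat.choose_le_two_pow L t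
    have h4 : 4 ^ L ≤ (16 ^ m) ^ t := by
      calc 4 ^ L ≤ 4 ^ (2 * m * t) := Nat.pow_le_pow_right (by norm_num) ht2
        _ = (16 ^ m) ^ t := by
          rw [← pow_mul, show (16 : ℕ) = 4 ^ 2 by norm_num, ← pow_mul]
          congr 1
          ring
    have h5 : 2 ^ L * 2 ^ L ≤ C.card * 2 ^ L := by
      calc 2 ^ L * 2 ^ L = 4 ^ L := by rw [← mul_pow]; norm_num
        _ ≤ _ := h4
        _ ≤ _ := h2
        _ ≤ C.card * 2 ^ L := Nat.mul_le_mul_left _ h3
    exact Nat.le_of_mul_le_mul_right h5 (Nat.pow_pos (by norm_num))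
  have hemb : Nonempty (Fin (2 ^ L) ↪ ↥C) := by
    refine Function.Embedding.nonempty_of_card_le ?_
    rw [Fintype.card_fin, Fintype.card_coe]
    exact hCc
  obtain ⟨φ⟩ := hemb
  refine ⟨fun i => gr (φ i).1, fun i => card_gr _, ?_⟩
  intro S hS
  by_contra hcon
  push Not at hcon
  obtain ⟨A, hA, hAc⟩ := exists_subset_card_eq (show m + 1 ≤ _ from hcon)
  have hinj : Function.Injective fun i => (φ i).1 := fun i j h => φ.injective (Subtype.ext h)
  have h1 := card_union ht1 hC (A.image fun i => (φ i).1) (by
    intro f hf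
    obtain ⟨i, -, rfl⟩ := mem_image.1 hf
    exact (φ i).2) (by rw [card_image_of_injective _ hinj]; omega)
  rw [card_image_of_injective _ hinj, hAc] at h1
  have h2 : ((A.image fun i => (φ i).1).biUnion gr).card ≤ S.card := by
    refine card_le_card ?_
    intro a ha
    obtain ⟨f, hf, haf⟩ := mem_biUnion.1 ha
    obtain ⟨i, hi, rfl⟩ := mem_image.1 hf
    exact (mem_filter.1 (hA hi)).2 haf
  have h3 : (m + 1) * L = 2 * (2 * κ * L) + L := by
    rw [hm]; ring
  omega

end Pool.Agent.Q248.BDP
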