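import Mathlib
import Pool.Agent.W431.Blk.Loc

/-!
Products of powers of linear forms in blocks of variables: local regularity.
-/

set_option autoImplicit false
set_option linter.unusedSectionVars false

namespace Pool.Agent.Q248.BDP

open MvPolynomial Pool.Agent.W431.Blk

noncomputable section

variable {K : Type} [Field K] {σ β : Type} [Fintype β] [DecidableEq β] {m : ℕ} (B : Blocks σ β m)

/-- the product of the powers of the linear forms with exponents `ex` -/
def pe (t : K) (ex : β → ℕ) : MvPolynomial σ K := ∏ a, lf B t a ^ ex a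

/-- the product of a monomial and powers of the linear forms -/
def qe (t : K) (ν : σ →₀ ℕ) (ex : β → ℕ) : MvPolynomial σ K := monomial ν 1 * pe B t ex

lemma eta_monomial (p : β → Fin m → K) {ν : σ →₀ ℕ} (hν : ∀ v, ν v ≠ 0 → B.lab v = none) :
    eta B p (monomial ν 1) = monomial ν (1 : K) := by
  unfold eta
  rw [aeval_monomial, map_one, one_mul, monomial_eq, C_1, one_mul]
  refine Finset.prod_congr rfl fun v hv => ?_
  simp only [hν v (Finsupp.mem_support_iff.1 hv)]
  rfl

lemma theta_monomial (p : β → Fin m → K) {ν : σ →₀ ℕ} (hν : ∀ v, ν v ≠ 0 → B.lab v = none) :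
    theta B p (monomial ν 1) = monomial ν (1 : K) := by
  unfold theta
  rw [aeval_monomial, map_one, one_mul, monomial_eq, C_1, one_mul]
  refine Finset.prod_congr rfl fun v hv => ?_
  simp only [hν v (Finsupp.mem_support_iff.1 hv)]
  rfl

/-- local regularity -/
theorem loc_regular [CharZero K] (hm : 0 < m) {r : ℕ} (ν : Fin r → σ →₀ ℕ)
    (hν : ∀ i v, ν i v ≠ 0 → B.lab v = none) (hν' : ∀ i i' v, i ≠ i' → ν i v ≠ 0 → ν i' v = 0)
    (ex : Fin r → β → ℕ) (𝓘 : Finset (Fin r))
    (h𝓘 : ∀ a : β, (𝓘.filter fun i => ex i a ≠ 0).card ≤ m) {i0 : Fin r} (hi0 : i0 ∈ 𝓘)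
    {𝓘' : Set (Fin r)} (h' : ∀ i ∈ 𝓘', i ∈ 𝓘 ∧ i ≠ i0) {g : MvPolynomial σ K}
    (hg : qe B ((i0 : ℕ) : K) (ν i0) (ex i0) * g ∈
      Ideal.span ((fun i : Fin r => qe B ((i : ℕ) : K) (ν i) (ex i)) '' 𝓘')) :
    g ∈ Ideal.span ((fun i : Fin r => qe B ((i : ℕ) : K) (ν i) (ex i)) '' 𝓘') := by
  classical
  -- colours
  have h1 : ∀ a : β, ∃ e : Fin r → Fin m, ∀ i ∈ 𝓘, ∀ i' ∈ 𝓘, ex i a ≠ 0 → ex i' a ≠ 0 →
      e i = e i' → i = i' := by
    intro a
    have h2 : Nonempty (↥(𝓘.filter fun i => ex i a ≠ 0) ↪ Fin m) := by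
      refine Function.Embedding.nonempty_of_card_le ?_
      rw [Fintype.card_coe, Fintype.card_fin]
      exact h𝓘 a
    obtain ⟨e⟩ := h2
    refine ⟨fun i => if h : i ∈ 𝓘.filter (fun i => ex i a ≠ 0) then e ⟨i, h⟩ else ⟨0, hm⟩, ?_⟩
    intro i hi i' hi' ha ha' hee
    have h3 : i ∈ 𝓘.filter (fun i => ex i a ≠ 0) := Finset.mem_filter.2 ⟨hi, ha⟩
    have h4 : i' ∈ 𝓘.filter (fun i => ex i a ≠ 0) := Finset.mem_filter.2 ⟨hi', ha'⟩
    simp only [dif_pos h3, dif_pos h4] at hee
    exact congrArg Subtype.val (e.injective hee)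
  choose e he using h1
  -- points
  let q : β → Fin m → ℕ := fun a c =>
    if h : ∃ i ∈ 𝓘, ex i a ≠ 0 ∧ e a i = c then (h.choose : ℕ) else r + c
  have hq : ∀ i ∈ 𝓘, ∀ a, ex i a ≠ 0 → q a (e a i) = i := by
    intro i hi a ha
    have h : ∃ i' ∈ 𝓘, ex i' a ≠ 0 ∧ e a i' = e a i := ⟨i, hi, ha, rfl⟩
    simp only [q]
    rw [dif_pos h]
    have h2 := h.choose_spec
    rw [he a _ h2.1 i hi h2.2.1 ha h2.2.2]
  have hqinj : ∀ a, Function.Injective (q a) := by
    intro a c c' hcc
    simp only [q] at hcc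
    split_ifs at hcc with h h'
    · have h2 := h.choose_spec
      have h3 := h'.choose_spec
      have h4 : h.choose = h'.choose := Fin.ext hcc
      rw [← h2.2.2, ← h3.2.2, h4]
    · have := h.choose.2
      omega
    · rename_i h'
      have := h'.choose.2
      omega
    · exact Fin.ext (by omega)
  let p : β → Fin m → K := fun a c => (q a c : K)
  have hp : ∀ a, Function.Injective (p a) := fun a c c' h => hqinj a (Nat.cast_injective h)
  -- the exponents
  let μ : Fin r → σ →₀ ℕ := fun i =>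
    ν i + ∑ a, Finsupp.single (B.emb a (e a i)) (ex i a)
  have hmono : ∀ i, (monomial (μ i) (1 : K)) =
      monomial (ν i) 1 * ∏ a, X (B.emb a (e a i)) ^ ex i a := by
    intro i
    simp only [μ]
    have h2 : (monomial (∑ a, Finsupp.single (B.emb a (e a i)) (ex i a)) (1 : K)) =
        ∏ a, X (B.emb a (e a i)) ^ ex i a := by
      rw [monomial_sum_one]
      exact Finset.prod_congr rfl fun a _ => (X_pow_eq_monomial).symm
    rw [← h2, monomial_mul, one_mul]
  have hpf : ∀ i ∈ 𝓘, qe B ((i : ℕ) : K) (ν i) (ex i) = eta B p (monomial (μ i) 1) := by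
    intro i hi
    unfold qe pe
    rw [hmono, map_mul, eta_monomial B p (hν i), map_prod]
    congr 1
    refine Finset.prod_congr rfl fun a _ => ?_
    rw [map_pow, eta_emb]
    by_cases ha : ex i a = 0
    · rw [ha, pow_zero, pow_zero]
    · simp only [p]
      rw [hq i hi a ha]
  have hpf' : ∀ i ∈ 𝓘, theta B p (qe B ((i : ℕ) : K) (ν i) (ex i)) = monomial (μ i) 1 := by
    intro i hi
    unfold qe pe
    rw [hmono, map_mul, theta_monomial B p (hν i), map_prod]
    congr 1
    refine Finset.prod_congr rfl fun a _ => ?_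
    rw [map_pow]
    by_cases ha : ex i a = 0
    · rw [ha, pow_zero, pow_zero]
    · rw [← theta_lf B hp a (e a i)]
      simp only [p]
      rw [hq i hi a ha]
  -- the exponents are disjoint
  have hμ : ∀ i, ∀ v, μ i v ≠ 0 → ν i v ≠ 0 ∨ ∃ a, ex i a ≠ 0 ∧ v = B.emb a (e a i) := by
    intro i v hv
    by_contra hcon
    push Not at hcon
    obtain ⟨hcon0, hcon⟩ := hcon
    apply hv
    simp only [μ]
    rw [Finsupp.add_apply, hcon0, zero_add, Finsupp.finsetSum_apply]
    refine Finset.sum_eq_zero fun a _ => ?_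
    rw [Finsupp.single_apply]
    split_ifs with h
    · by_contra h0
      exact hcon a h0 h.symm
    · rfl
  have himg : (fun s => monomial s (1 : K)) '' (μ '' 𝓘') =
      (fun i : Fin r => theta B p (qe B ((i : ℕ) : K) (ν i) (ex i))) '' 𝓘' := by
    rw [Set.image_image]
    refine Set.image_congr fun i hi => ?_
    exact (hpf' i (h' i hi).1).symm
  have h2 : theta B p g ∈ Ideal.span ((fun s => monomial s (1 : K)) '' (μ '' 𝓘')) := by
    refine mono_regular (τ := μ i0) ?_ ?_
    · rintro _ ⟨i, hi, rfl⟩ v hv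
      by_contra hcon
      rcases hμ i v hv with hv0 | ⟨a, ha, hva⟩
      · rcases hμ i0 v hcon with hv1 | ⟨a', ha', hva'⟩
        · exact hv1 (hν' i i0 v (h' i hi).2 hv0)
        · have h3 := hν i v hv0
          rw [hva', B.lab_emb] at h3
          exact absurd h3 (by simp)
      rcases hμ i0 v hcon with hv1 | ⟨a', ha', hva'⟩
      · have h3 := hν i0 v hv1
        rw [hva, B.lab_emb] at h3
        exact absurd h3 (by simp)
      have h3 : some a = some a' := by
        rw [← B.lab_emb a (e a i), ← hva, hva', B.lab_emb]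
      have h4 : a = a' := Option.some_injective _ h3
      subst h4
      have h5 : e a i = e a i0 := by
        rw [← B.co_emb a (e a i), ← hva, hva', B.co_emb]
      exact (h' i hi).2 (he a i (h' i hi).1 i0 hi0 ha ha' h5)
    · rw [himg, ← hpf' i0 hi0, ← map_mul]
      have h3 := Ideal.mem_map_of_mem (theta B p) hg
      rw [Ideal.map_span, Set.image_image] at h3
      exact h3
  have h3 := Ideal.mem_map_of_mem (eta B p) h2
  rw [eta_theta B hp, Ideal.map_span, Set.image_image, Set.image_image] at h3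
  have h4 : (fun x => eta B p (monomial (μ x) 1)) '' 𝓘' =
      (fun i : Fin r => qe B ((i : ℕ) : K) (ν i) (ex i)) '' 𝓘' :=
    Set.image_congr fun i hi => (hpf i (h' i hi).1).symm
  rw [h4] at h3
  exact h3

end

end Pool.Agent.Q248.BDP
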