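import Mathlib
import Pool.Agent.Q248.BDP.Loc
import Pool.Agent.Q248.BDP.Cmp

/-!
Products of powers of linear forms in blocks of variables: global regularity in low degrees.
-/

set_option autoImplicit false
set_option linter.unusedSectionVars false

namespace Pool.Agent.Q248.BDP

open MvPolynomial Pool.Agent.W431.Blk

noncomputable section

variable {K : Type} [Field K] [CharZero K] {σ β : Type} [Fintype β] [DecidableEq β] {m : ℕ}
  (B : Blocks σ β m)

/-- the block degrees of the variables -/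
def wtB (v : σ) : β → ℕ := (B.lab v).elim 0 fun a => Pi.single a 1

lemma wtB_emb (a : β) (j : Fin m) : wtB B (B.emb a j) = Pi.single a 1 := by
  unfold wtB
  rw [B.lab_emb]
  rfl

lemma sum_wtB_le (v : σ) : ∑ a, wtB B v a ≤ 1 := by
  unfold wtB
  rcases B.lab v with _ | a
  · simp
  · simp

lemma sum_weight_le (α : σ →₀ ℕ) : ∑ a, Finsupp.weight (wtB B) α a ≤ α.degree := by
  classical
  rw [Finsupp.weight_apply, Finsupp.degree_apply, Finsupp.sum]
  have h1 : ∀ a, (∑ v ∈ α.support, α v • wtB B v) a = ∑ v ∈ α.support, α v * wtB B v a := by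
    intro a
    rw [Finset.sum_apply]
    exact Finset.sum_congr rfl fun v _ => by rw [Pi.smul_apply, smul_eq_mul]
  rw [Finset.sum_congr rfl fun a _ => h1 a, Finset.sum_comm]
  refine Finset.sum_le_sum fun v _ => ?_
  rw [← Finset.mul_sum]
  calc α v * ∑ a, wtB B v a ≤ α v * 1 := Nat.mul_le_mul_left _ (sum_wtB_le B v)
    _ = α v := mul_one _

lemma lf_wh (t : K) (a : β) : IsWeightedHomogeneous (wtB B) (lf B t a) (Pi.single a 1) := by
  unfold lf
  refine IsWeightedHomogeneous.sum _ _ _ fun j _ => ?_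
  refine Submodule.smul_mem (weightedHomogeneousSubmodule K (wtB B) (Pi.single a 1)) _ ?_
  have h := isWeightedHomogeneous_X K (wtB B) (B.emb a j)
  rw [wtB_emb] at h
  exact h

lemma pe_wh (t : K) (ex : β → ℕ) : IsWeightedHomogeneous (wtB B) (pe B t ex) ex := by
  unfold pe
  have h := IsWeightedHomogeneous.prod (w := wtB B) Finset.univ (fun a => lf B t a ^ ex a)
    (fun a => ex a • Pi.single a 1) (fun a _ => (lf_wh B t a).pow (ex a))
  have h1 : ∑ a, ex a • (Pi.single a 1 : β → ℕ) = ex := by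
    funext b
    rw [Finset.sum_apply, Finset.sum_eq_single b]
    · simp
    · intro a _ hab
      simp [Ne.symm hab]
    · intro hb; exact absurd (Finset.mem_univ b) hb
  rwa [h1] at h

lemma qe_wh (t : K) {ν : σ →₀ ℕ} (hν : ∀ v, ν v ≠ 0 → B.lab v = none) (ex : β → ℕ) :
    IsWeightedHomogeneous (wtB B) (qe B t ν ex) ex := by
  unfold qe
  have h0 : Finsupp.weight (wtB B) ν = 0 := by
    rw [Finsupp.weight_apply, Finsupp.sum]
    refine Finset.sum_eq_zero fun v hv => ?_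
    have h1 : wtB B v = 0 := by
      unfold wtB
      rw [hν v (Finsupp.mem_support_iff.1 hv)]
      rfl
    rw [h1, smul_zero]
  have h := (isWeightedHomogeneous_monomial (wtB B) ν (1 : K) h0).mul (pe_wh B t ex)
  rwa [zero_add] at h

/-- the forms -/
def FP (D : ℕ) {r : ℕ} (ν : Fin r → σ →₀ ℕ) (e : Fin r → ℕ) (ex : Fin r → β → ℕ) (i : Fin r) :
    MvPolynomial σ K :=
  if e i ≤ D then qe B ((i : ℕ) : K) (ν i) (ex i) else 0

lemma FP_wh (D : ℕ) {r : ℕ} {ν : Fin r → σ →₀ ℕ} (hν : ∀ i v, ν i v ≠ 0 → B.lab v = none)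
    (e : Fin r → ℕ) (ex : Fin r → β → ℕ) (i : Fin r) :
    IsWeightedHomogeneous (wtB B) (FP (K := K) B D ν e ex i) (ex i) := by
  unfold FP
  split_ifs
  · exact qe_wh B _ (hν i) _
  · exact isWeightedHomogeneous_zero _ _ _

theorem glob_regular (hm : 0 < m) {s : ℕ} (D : ℕ) {r : ℕ} (d e : Fin r → ℕ)
    (ν : Fin r → σ →₀ ℕ) (hν : ∀ i v, ν i v ≠ 0 → B.lab v = none)
    (hν' : ∀ i i' v, i ≠ i' → ν i v ≠ 0 → ν i' v = 0)
    (ex : Fin r → β → ℕ) (hex : ∀ i, e i ≤ D → (ν i).degree + ∑ a, ex i a = d i)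
    (hexs : ∀ i, e i ≤ D → ∀ a, ex i a = 0 ∨ s ≤ ex i a)
    (hact : ∀ i, d i < s * (D + 1) → e i ≤ D)
    (hH : ∀ S : Finset β, S.card ≤ D → ∀ a, ∀ A : Finset (Fin r),
      (∀ i ∈ A, (e i ≤ D ∧ ∀ b, ex i b ≠ 0 → b ∈ S) ∧ ex i a ≠ 0) → A.card ≤ m)
    {i0 : Fin r} {𝓙 : Set (Fin r)} (hi0 : i0 ∉ 𝓙) {k : ℕ} (hk : k < s * (D + 1))
    (hdk : d i0 ≤ k) {G : MvPolynomial σ K} (hG : G.IsHomogeneous (k - d i0))
    (h : FP B D ν e ex i0 * G ∈ Ideal.span ((FP (K := K) B D ν e ex) '' 𝓙)) :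
    G ∈ Ideal.span ((FP (K := K) B D ν e ex) '' 𝓙) := by
  classical
  have hei0 : e i0 ≤ D := hact i0 (by omega)
  rw [← sum_cmp (wtB B) G]
  refine Submodule.sum_mem _ fun κ hκ => ?_
  obtain ⟨α, hα, hακ⟩ := Finset.mem_image.1 hκ
  have hdeg : α.degree = k - d i0 := by
    by_contra hcon
    exact mem_support_iff.1 hα (hG.coeff_eq_zero hcon)
  have hκ' : ∑ a, (κ + ex i0) a ≤ k := by
    have h1 := sum_weight_le B α
    rw [hακ, hdeg] at h1
    have h2 := hex i0 hei0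
    calc ∑ a, (κ + ex i0) a = ∑ a, κ a + ∑ a, ex i0 a := by
          rw [← Finset.sum_add_distrib]; rfl
      _ ≤ k := by omega
  let S : Finset β := Finset.univ.filter fun a => s ≤ (κ + ex i0) a
  have hS : S.card ≤ D := by
    have h1 : S.card * s ≤ ∑ a ∈ S, (κ + ex i0) a := by
      rw [← smul_eq_mul]
      exact Finset.card_nsmul_le_sum _ _ _ fun a ha => (Finset.mem_filter.1 ha).2
    have h2 : ∑ a ∈ S, (κ + ex i0) a ≤ ∑ a, (κ + ex i0) a :=
      Finset.sum_le_sum_of_subset (Finset.subset_univ S)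
    have h3 : s * S.card < s * (D + 1) := by
      rw [mul_comm s S.card]
      omega
    have := Nat.lt_of_mul_lt_mul_left h3
    omega
  have hle : ∀ i, e i ≤ D → ex i ≤ κ + ex i0 → ∀ b, ex i b ≠ 0 → b ∈ S := by
    intro i hi hle b hb
    refine Finset.mem_filter.2 ⟨Finset.mem_univ b, ?_⟩
    rcases hexs i hi b with h1 | h1
    · exact absurd h1 hb
    · exact h1.trans (hle b)
  let 𝓘 : Finset (Fin r) := Finset.univ.filter fun i => e i ≤ D ∧ ∀ b, ex i b ≠ 0 → b ∈ S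
  have hi0' : i0 ∈ 𝓘 :=
    Finset.mem_filter.2 ⟨Finset.mem_univ i0, hei0, hle i0 hei0 le_add_self⟩
  have h𝓘 : ∀ a : β, (𝓘.filter fun i => ex i a ≠ 0).card ≤ m := by
    intro a
    refine hH S hS a _ fun i hi => ?_
    have h1 := Finset.mem_filter.1 hi
    exact ⟨(Finset.mem_filter.1 h1.1).2, h1.2⟩
  have h' : ∀ i ∈ {i | i ∈ 𝓙 ∧ i ∈ 𝓘}, i ∈ 𝓘 ∧ i ≠ i0 := by
    rintro i ⟨hi1, hi2⟩
    refine ⟨hi2, ?_⟩
    rintro rfl
    exact hi0 hi1
  have h1 := cmp_mem (fun i => FP_wh (K := K) B D hν e ex i) h (κ + ex i0)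
  rw [cmp_hom_mul (FP_wh (K := K) B D hν e ex i0)] at h1
  have h3 : FP (K := K) B D ν e ex i0 = qe B ((i0 : ℕ) : K) (ν i0) (ex i0) := by
    unfold FP
    rw [if_pos hei0]
  have h2 := loc_regular (K := K) B hm ν hν hν' ex 𝓘 h𝓘 hi0' h' (g := cmp (wtB B) κ G) (by
    rw [← h3]
    refine Ideal.span_le.2 ?_ h1
    rintro _ ⟨i, ⟨hi1, hi2⟩, rfl⟩
    by_cases hiD : e i ≤ D
    · have h4 : FP (K := K) B D ν e ex i = qe B ((i : ℕ) : K) (ν i) (ex i) := by
        unfold FP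
        rw [if_pos hiD]
      rw [h4]
      exact Ideal.subset_span ⟨i, ⟨hi1, Finset.mem_filter.2 ⟨Finset.mem_univ i, hiD,
        hle i hiD hi2⟩⟩, rfl⟩
    · have h4 : FP (K := K) B D ν e ex i = 0 := by
        unfold FP
        rw [if_neg hiD]
      rw [h4]
      exact Submodule.zero_mem _)
  refine Ideal.span_le.2 ?_ h2
  rintro _ ⟨i, ⟨hi1, hi2⟩, rfl⟩
  have hiD := (Finset.mem_filter.1 hi2).2.1
  refine Ideal.subset_span ⟨i, hi1, ?_⟩
  unfold FP
  rw [if_pos hiD]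

end

end Pool.Agent.Q248.BDP
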