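import Mathlib
import Pool.Agent.Q248.BDP.Glob
import Pool.Agent.W431.Blk.Cnt

/-!
The Hilbert function of families of products of powers of linear forms, and of generic forms.
-/

set_option autoImplicit false
set_option linter.unusedSectionVars false

namespace Pool.Agent.Q248.BDP

open MvPolynomial H350MG Pool.Agent.W431.Blk

noncomputable section

section fam

variable {K : Type} [Field K] [CharZero K] {σ β : Type} [Fintype σ] [DecidableEq σ] [Fintype β]
  [DecidableEq β] {m : ℕ} (B : Blocks σ β m)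

lemma qe_hom (t : K) (ν : σ →₀ ℕ) (ex : β → ℕ) :
    (qe B t ν ex).IsHomogeneous (ν.degree + ∑ a, ex a) := by
  unfold qe pe
  refine (isHomogeneous_monomial 1 rfl).mul ?_
  refine IsHomogeneous.prod Finset.univ (fun a => lf B t a ^ ex a) ex (fun a _ => ?_)
  have h := (lf_hom B t a).pow (ex a)
  rwa [one_mul] at h

lemma qe_ne (hm : 0 < m) (t : K) (ν : σ →₀ ℕ) (ex : β → ℕ) : qe B t ν ex ≠ 0 := by
  unfold qe pe
  refine mul_ne_zero ?_ (Finset.prod_ne_zero_iff.2 fun a _ => pow_ne_zero _ (lf_ne B hm t a))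
  rw [Ne, monomial_eq_zero]
  exact one_ne_zero

lemma FP_hom {D r : ℕ} {d e : Fin r → ℕ} {ν : Fin r → σ →₀ ℕ} {ex : Fin r → β → ℕ}
    (hex : ∀ i, e i ≤ D → (ν i).degree + ∑ a, ex i a = d i) (i : Fin r) :
    FP (K := K) B D ν e ex i ∈ Rj K σ (d i) := by
  unfold FP
  by_cases h : e i ≤ D
  · rw [if_pos h]
    have h1 := qe_hom B ((i : ℕ) : K) (ν i) (ex i)
    rw [hex i h] at h1
    exact h1
  · rw [if_neg h]
    exact Submodule.zero_mem _

/-- the Hilbert function of the families -/
theorem qd_family (hm : 0 < m) {s : ℕ} (D : ℕ) {r : ℕ} (d e : Fin r → ℕ)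
    (ν : Fin r → σ →₀ ℕ) (hν : ∀ i v, ν i v ≠ 0 → B.lab v = none)
    (hν' : ∀ i i' v, i ≠ i' → ν i v ≠ 0 → ν i' v = 0)
    (ex : Fin r → β → ℕ) (hex : ∀ i, e i ≤ D → (ν i).degree + ∑ a, ex i a = d i)
    (hexs : ∀ i, e i ≤ D → ∀ a, ex i a = 0 ∨ s ≤ ex i a)
    (hact : ∀ i, d i < s * (D + 1) → e i ≤ D)
    (hH : ∀ S : Finset β, S.card ≤ D → ∀ a, ∀ A : Finset (Fin r),
      (∀ i ∈ A, (e i ≤ D ∧ ∀ b, ex i b ≠ 0 → b ∈ S) ∧ ex i a ≠ 0) → A.card ≤ m) :
    ∀ L : List (Fin r), L.Nodup → ∀ k < s * (D + 1),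
      qd (L.map fun i => (FP (K := K) B D ν e ex i, d i)) k = E (gj σ) (L.map d) k := by
  intro L
  induction L with
  | nil =>
    intro _ k _
    have h0 : Module.finrank K (J ([] : List (MvPolynomial σ K × ℕ)) k) = 0 :=
      finrank_bot K (MvPolynomial σ K)
    simp only [List.map_nil, E]
    rw [qd, h0, Nat.cast_zero, sub_zero]
  | cons i L ih =>
    intro hnd k hk
    rw [List.nodup_cons] at hnd
    have ih' := ih hnd.2
    set l := L.map fun i => (FP (K := K) B D ν e ex i, d i) with hl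
    have hlg : ∀ c ∈ l, c.1 ∈ Rj K σ c.2 := by
      intro c hc
      rw [hl, List.mem_map] at hc
      obtain ⟨i', _, rfl⟩ := hc
      exact FP_hom B hex i'
    have hspan : {x | ∃ c ∈ l, c.1 = x} = (FP (K := K) B D ν e ex) '' {i | i ∈ L} := by
      ext x
      constructor
      · rintro ⟨c, hc, rfl⟩
        rw [hl, List.mem_map] at hc
        obtain ⟨i', hi', rfl⟩ := hc
        exact ⟨i', hi', rfl⟩
      · rintro ⟨i', hi', rfl⟩
        exact ⟨(FP (K := K) B D ν e ex i', d i'), List.mem_map.2 ⟨i', hi', rfl⟩, rfl⟩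
    rw [List.map_cons, List.map_cons, ← hl]
    simp only [E]
    have ihk := ih' k hk
    by_cases hdk : d i ≤ k
    · have hei : e i ≤ D := hact i (by omega)
      rw [if_pos hdk]
      have ihk' := ih' (k - d i) (by omega)
      have h1 := finrank_J_cons (c := (FP (K := K) B D ν e ex i, d i)) (l := l)
        (FP_hom B hex i) hlg hdk
      have h2 := finrank_J_cons_ge (c := (FP (K := K) B D ν e ex i, d i)) (l := l)
        (FP_hom B hex i) hlg hdk (by
          simp only [FP]
          rw [if_pos hei]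
          exact qe_ne B hm _ _ _) (by
          intro G hG hGJ
          rw [mem_J_iff hlg, hspan] at hGJ
          rw [mem_J_iff hlg, hspan]
          refine ⟨?_, hG⟩
          exact glob_regular B hm D d e ν hν hν' ex hex hexs hact hH (i0 := i)
            (𝓙 := {i | i ∈ L}) hnd.1 hk hdk hG hGJ.1)
      simp only at h1 h2
      have h3 : (Module.finrank K (J ((FP (K := K) B D ν e ex i, d i) :: l) k) : ℤ) +
          Module.finrank K (J l (k - d i)) =
          Module.finrank K (J l k) + Module.finrank K (Rj K σ (k - d i)) := by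
        exact_mod_cast le_antisymm h1 h2
      rw [← ihk, ← ihk']
      unfold qd
      rw [finrank_Rj'] at h3
      linarith
    · rw [if_neg hdk, sub_zero, ← ihk]
      unfold qd
      rw [J, Jt, if_neg hdk, sup_bot_eq]

end fam

/-- `N` consecutive blocks of `m` variables -/
def nBlocks (n m N : ℕ) (hm : 0 < m) (hN : m * N ≤ n) : Blocks (Fin n) (Fin N) m where
  emb a j := ⟨a * m + j, by
    have h1 : (a : ℕ) + 1 ≤ N := a.2
    have h2 : ((a : ℕ) + 1) * m ≤ N * m := Nat.mul_le_mul_right m h1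
    have h4 := j.2
    nlinarith⟩
  lab v := if h : (v : ℕ) / m < N then some ⟨v / m, h⟩ else none
  co v := ⟨v % m, Nat.mod_lt _ hm⟩
  lab_emb a j := by
    have h : ((a : ℕ) * m + j) / m = a := by
      rw [mul_comm, Nat.mul_add_div hm, Nat.div_eq_of_lt j.2, add_zero]
    have h' : ((a : ℕ) * m + j) / m < N := by rw [h]; exact a.2
    simp only [dif_pos h']
    exact congrArg some (Fin.ext h)
  co_emb a j := by
    refine Fin.ext ?_
    simp only
    rw [mul_comm, Nat.mul_add_mod, Nat.mod_eq_of_lt j.2]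
  emb_co v a h := by
    by_cases h' : (v : ℕ) / m < N
    · simp only [dif_pos h'] at h
      have h1 : (v : ℕ) / m = a := congrArg Fin.val (Option.some_injective _ h)
      refine Fin.ext ?_
      simp only
      rw [← h1, mul_comm]
      exact Nat.div_add_mod _ _
    · simp only [dif_neg h'] at h
      exact absurd h (by simp)

/-- the exponents -/
lemma exists_exponents {r N s : ℕ} (hs : 1 ≤ s) {d : Fin r → ℕ} {T : Fin r → Finset (Fin N)}
    (hed : ∀ i, s * (T i).card ≤ d i) :
    ∃ ex : Fin r → Fin N → ℕ, (∀ i, (T i).card ≠ 0 → ∑ a, ex i a = d i) ∧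
      (∀ i, ∀ a, ex i a = 0 ∨ s ≤ ex i a) ∧ (∀ i, ∀ a, ex i a ≠ 0 ↔ a ∈ T i) := by
  classical
  have h1 : ∀ i, ∃ x : Fin N → ℕ, ((T i).card ≠ 0 → ∑ a, x a = d i) ∧
      (∀ a, x a = 0 ∨ s ≤ x a) ∧ (∀ a, x a ≠ 0 ↔ a ∈ T i) := by
    intro i
    rcases (T i).eq_empty_or_nonempty with h0 | ⟨a0, ha0⟩
    · refine ⟨fun _ => 0, fun h1 => ?_, fun _ => Or.inl rfl, fun a => ?_⟩
      · rw [h0, Finset.card_empty] at h1
        exact absurd rfl h1
      · rw [h0]; simp
    · refine ⟨fun a => (if a ∈ T i then s else 0) + if a = a0 then d i - s * (T i).card else 0,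
        fun h1 => ?_, fun a => ?_, fun a => ?_⟩
      · rw [Finset.sum_add_distrib, Finset.sum_ite_eq' Finset.univ a0, if_pos (Finset.mem_univ a0),
          Finset.sum_ite_mem, Finset.univ_inter, Finset.sum_const, smul_eq_mul]
        have h2 := hed i
        rw [mul_comm (T i).card s]
        omega
      · by_cases ha : a ∈ T i
        · right
          simp only [if_pos ha]
          omega
        · left
          have hne : a ≠ a0 := fun h => ha (h ▸ ha0)
          simp only [if_neg ha, if_neg hne]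
      · by_cases ha : a ∈ T i
        · simp only [if_pos ha]
          constructor
          · intro _; exact ha
          · intro _; omega
        · have hne : a ≠ a0 := fun h => ha (h ▸ ha0)
          simp only [if_neg ha, if_neg hne]
          constructor
          · intro h; exact absurd rfl h
          · intro h; exact absurd h ha
  choose ex hex using h1
  exact ⟨ex, fun i => (hex i).1, fun i => (hex i).2.1, fun i => (hex i).2.2⟩

/-- variables for the forms outside the blocks -/
lemma exists_outer {n m N c r : ℕ} (hm : 0 < m) (hn : c + m * N ≤ n) (d e : Fin r → ℕ)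
    (hc : (Finset.univ.filter fun i => e i = 0).card ≤ c) :
    ∃ ν : Fin r → Fin n →₀ ℕ,
      (∀ i v, ν i v ≠ 0 → (nBlocks n m N hm (by omega)).lab v = none) ∧
      (∀ i i' v, i ≠ i' → ν i v ≠ 0 → ν i' v = 0) ∧ (∀ i, e i = 0 → (ν i).degree = d i) ∧
      ∀ i, e i ≠ 0 → ν i = 0 := by
  classical
  have h2 : Nonempty (↥(Finset.univ.filter fun i => e i = 0) ↪ Fin c) := by
    refine Function.Embedding.nonempty_of_card_le ?_
    rw [Fintype.card_coe, Fintype.card_fin]
    exact hc
  obtain ⟨t⟩ := h2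
  let v : ↥(Finset.univ.filter fun i => e i = 0) → Fin n := fun i =>
    ⟨m * N + t i, by have := (t i).2; omega⟩
  have hv : Function.Injective v := by
    intro i i' h
    have h3 : m * N + (t i : ℕ) = m * N + (t i' : ℕ) := congrArg Fin.val h
    exact t.injective (Fin.ext (by omega))
  have hlab : ∀ i, (nBlocks n m N hm (by omega)).lab (v i) = none := by
    intro i
    have h3 : ¬ (m * N + (t i : ℕ)) / m < N := by
      rw [Nat.mul_add_div hm]
      exact Nat.not_lt.2 (Nat.le_add_right _ _)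
    show (if h : (m * N + (t i : ℕ)) / m < N then some (⟨_, h⟩ : Fin N) else none) = none
    rw [dif_neg h3]
  let ν : Fin r → Fin n →₀ ℕ := fun i =>
    if h : e i = 0 then Finsupp.single (v ⟨i, Finset.mem_filter.2 ⟨Finset.mem_univ i, h⟩⟩) (d i)
    else 0
  have hν1 : ∀ i, ∀ h : e i = 0,
      ν i = Finsupp.single (v ⟨i, Finset.mem_filter.2 ⟨Finset.mem_univ i, h⟩⟩) (d i) := by
    intro i h
    simp only [ν]
    rw [dif_pos h]
  have hν0 : ∀ i, e i ≠ 0 → ν i = 0 := by
    intro i h
    simp only [ν]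
    rw [dif_neg h]
  have hsup : ∀ i x, ν i x ≠ 0 → ∃ h : e i = 0,
      x = v ⟨i, Finset.mem_filter.2 ⟨Finset.mem_univ i, h⟩⟩ := by
    intro i x hx
    by_cases h : e i = 0
    · refine ⟨h, ?_⟩
      rw [hν1 i h, Finsupp.single_apply] at hx
      by_contra hcon
      rw [if_neg (fun h5 => hcon h5.symm)] at hx
      exact hx rfl
    · rw [hν0 i h] at hx
      exact absurd rfl hx
  refine ⟨ν, ?_, ?_, ?_, hν0⟩
  · intro i x hx
    obtain ⟨h, rfl⟩ := hsup i x hx
    exact hlab _
  · intro i i' x hne hx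
    by_contra hx'
    obtain ⟨h, h3⟩ := hsup i x hx
    obtain ⟨h', h4⟩ := hsup i' x hx'
    apply hne
    exact congrArg Subtype.val (hv (h3.symm.trans h4))
  · intro i h
    rw [hν1 i h, Finsupp.degree_single]

/-- the generic Hilbert function -/
theorem main (D m s c N : ℕ) (hm : 0 < m) (hs : 1 ≤ s)
    (K : Type) [Field K] [CharZero K] (n r : ℕ) (hn : c + m * N ≤ n) (d : Fin r → ℕ)
    (T : Fin r → Finset (Fin N)) (hd : ∀ i, 1 ≤ d i) (hed : ∀ i, s * (T i).card ≤ d i)
    (hc0 : (Finset.univ.filter fun i => T i = ∅).card ≤ c)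
    (hc : ∀ S : Finset (Fin N), S.card ≤ D → ∀ a ∈ S,
      (Finset.univ.filter fun i => a ∈ T i ∧ T i ⊆ S).card ≤ m) :
    ∃ Φ : MvPolynomial (Cf (Fin n) d) K, Φ ≠ 0 ∧ ∀ x, eval x Φ ≠ 0 → ∀ k < s * (D + 1),
      qd (fList d (fc x)) k = E (gj (Fin n)) (List.ofFn d) k := by
  classical
  have hmN : m * N ≤ n := by omega
  let e : Fin r → ℕ := fun i => (T i).card
  have he0 : ∀ i, e i = 0 ↔ T i = ∅ := fun i => Finset.card_eq_zero
  obtain ⟨ex, hex1, hex2, hex3⟩ := exists_exponents hs hed
  obtain ⟨ν, hν1, hν2, hν3, hν4⟩ := exists_outer hm hn d e (by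
    refine le_trans (Finset.card_le_card ?_) hc0
    intro i hi
    exact Finset.mem_filter.2 ⟨Finset.mem_univ i, (he0 i).1 (Finset.mem_filter.1 hi).2⟩)
  have hex : ∀ i, e i ≤ D → (ν i).degree + ∑ a, ex i a = d i := by
    intro i hi
    by_cases h : e i = 0
    · have h1 : ∀ a, ex i a = 0 := by
        intro a
        by_contra h2
        have h3 := (hex3 i a).1 h2
        rw [(he0 i).1 h] at h3
        simp at h3
      rw [hν3 i h, Finset.sum_eq_zero (fun a _ => h1 a), add_zero]
    · rw [hν4 i h, hex1 i h, map_zero, zero_add]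
  have hact : ∀ i, d i < s * (D + 1) → e i ≤ D := by
    intro i hi
    have h1 : s * e i ≤ d i := hed i
    have h2 : s * e i < s * (D + 1) := by omega
    have := Nat.lt_of_mul_lt_mul_left h2
    omega
  have hcount : ∀ S : Finset (Fin N), S.card ≤ D → ∀ a, ∀ A : Finset (Fin r),
      (∀ i ∈ A, (e i ≤ D ∧ ∀ b, ex i b ≠ 0 → b ∈ S) ∧ ex i a ≠ 0) → A.card ≤ m := by
    intro S hS a A hA
    rcases A.eq_empty_or_nonempty with rfl | ⟨i0, hi0⟩
    · rw [Finset.card_empty]; exact Nat.zero_le _
    have haS : a ∈ S := (hA i0 hi0).1.2 a (hA i0 hi0).2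
    refine (Finset.card_le_card ?_).trans (hc S hS a haS)
    intro i hi
    obtain ⟨⟨h1, h2⟩, h3⟩ := hA i hi
    refine Finset.mem_filter.2 ⟨Finset.mem_univ i, (hex3 i a).1 h3, ?_⟩
    intro b hb
    exact h2 b ((hex3 i b).2 hb)
  have hfam := qd_family (K := K) (nBlocks n m N hm hmN) hm (s := s) D d e ν hν1 hν2 ex hex
    (fun i _ => hex2 i) hact hcount (List.finRange r) (List.nodup_finRange r)
  let F : Fin r → MvPolynomial (Fin n) K := FP (nBlocks n m N hm hmN) D ν e ex
  have hF : ∀ i, F i ∈ Rj K (Fin n) (d i) := fun i => FP_hom (nBlocks n m N hm hmN) hex i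
  have hlist : fList d F = (List.finRange r).map fun i => (F i, d i) := by
    unfold fList
    rw [List.ofFn_eq_map]
  have hlist' : List.ofFn d = (List.finRange r).map d := List.ofFn_eq_map
  let c0 : Cf (Fin n) d → K := fun s => (F s.1).coeff s.2.1
  have hc0 : fc c0 = F := funext fun i => fc_coeff (f := F) (fun i => hF i) i
  choose Φ h0 hΦ using fun j => generic_J (𝕜 := K) d j c0
  refine ⟨∏ j ∈ Finset.range (s * (D + 1)), Φ j, Finset.prod_ne_zero_iff.2 fun j _ => h0 j, ?_⟩
  intro x hcc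
  have hsnd : (fList d (fc x)).map Prod.snd = List.ofFn d := by
    unfold fList
    rw [List.map_ofFn]
    rfl
  have hpos : 0 < s * (D + 1) := Nat.mul_pos hs (Nat.succ_pos D)
  have key := qd_EQ (s * (D + 1) - 1) (fList d (fc x)) (by
    intro a ha
    obtain ⟨i, rfl⟩ := mem_fList.1 ha
    exact ⟨fc_hom x i, hd i⟩) (by
    intro j hj
    have h1 : eval x (Φ j) ≠ 0 := by
      intro h
      apply hcc
      rw [map_prod]
      exact Finset.prod_eq_zero (Finset.mem_range.2 (by omega)) h
    have h2 := hΦ j x h1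
    rw [hc0] at h2
    have h3 := hfam j (by omega)
    rw [hsnd, hlist', ← h3]
    have h4 : (Module.finrank K (J (fList d F) j) : ℤ) ≤
      (Module.finrank K (J (fList d (fc x)) j) : ℤ) := by exact_mod_cast h2
    rw [hlist] at h4
    unfold qd
    linarith)
  intro j hj
  have := key j (by omega)
  rw [hsnd] at this
  exact this

end

end Pool.Agent.Q248.BDP
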