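import Mathlib
import Pool.Agent.Q248.BDP.Main
import Pool.Agent.Q248.BDP.Code

/-!
Systems of sets for polynomially and exponentially many forms.
-/

set_option autoImplicit false
set_option linter.unusedSectionVars false

namespace Pool.Agent.Q248.BDP

/-- the number of the forms -/
lemma count_aux {δ m n r : ℕ} (hδ : 1 ≤ δ) (hm : 1 ≤ m)
    (hr : r * ((4 * δ * m) ^ δ * δ.factorial) ≤ n ^ δ) : r ≤ (n / m).choose δ := by
  obtain ⟨M, hM⟩ : ∃ M, M = (4 * δ * m) ^ δ * δ.factorial := ⟨_, rfl⟩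
  rw [← hM] at hr
  have hfac : 1 ≤ δ.factorial := Nat.one_le_iff_ne_zero.2 (Nat.factorial_ne_zero δ)
  have hδm : 1 ≤ δ * m := Nat.mul_le_mul hδ hm
  have hMpos : 0 < M := by
    rw [hM]
    exact Nat.mul_pos (Nat.pow_pos (by nlinarith)) hfac
  by_cases hn : n < 2 * δ * m
  · have h1 : n ^ δ < M := by
      calc n ^ δ < (2 * δ * m) ^ δ := Nat.pow_lt_pow_left hn (by omega)
        _ ≤ (4 * δ * m) ^ δ := Nat.pow_le_pow_left (by nlinarith) δ
        _ = (4 * δ * m) ^ δ * 1 := (mul_one _).symm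
        _ ≤ M := by rw [hM]; exact Nat.mul_le_mul_left _ hfac
    have h2 : r * M < 1 * M := by rw [one_mul]; exact lt_of_le_of_lt hr h1
    have h3 := Nat.lt_of_mul_lt_mul_right h2
    omega
  · push Not at hn
    obtain ⟨N, hN⟩ : ∃ N, N = n / m := ⟨_, rfl⟩
    rw [← hN]
    have hN1 : 2 * δ ≤ N := by
      rw [hN]
      exact (Nat.le_div_iff_mul_le (by omega)).2 hn
    have hN2 : n ≤ 2 * m * N := by
      have h1 : n < m * (N + 1) := by
        rw [hN]
        exact Nat.lt_mul_div_succ n (by omega)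
      nlinarith
    have hN3 : N ≤ 2 * (N + 1 - δ) := by omega
    have hch : (N + 1 - δ) ^ δ ≤ δ.factorial * N.choose δ := by
      have h1 := Nat.pow_le_choose δ N (α := ℚ)
      have h2 : (((N + 1 - δ : ℕ) : ℚ)) ^ δ ≤ (δ.factorial : ℚ) * (N.choose δ : ℚ) := by
        rw [div_le_iff₀ (by positivity)] at h1
        linarith
      exact_mod_cast h2
    have h4 : n ^ δ ≤ M * N.choose δ := by
      calc n ^ δ ≤ (2 * m * N) ^ δ := Nat.pow_le_pow_left hN2 δ
        _ ≤ (2 * m * (2 * (N + 1 - δ))) ^ δ :=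
            Nat.pow_le_pow_left (Nat.mul_le_mul_left _ hN3) δ
        _ = (4 * m) ^ δ * (N + 1 - δ) ^ δ := by rw [← mul_pow]; congr 1; ring
        _ ≤ (4 * δ * m) ^ δ * (δ.factorial * N.choose δ) := by
            refine Nat.mul_le_mul (Nat.pow_le_pow_left ?_ δ) hch
            nlinarith
        _ = M * N.choose δ := by rw [hM]; ring
    have h5 : M * r ≤ M * N.choose δ := by
      rw [mul_comm M r]
      exact hr.trans h4
    exact Nat.le_of_mul_le_mul_left h5 hMpos

/-- a system of `r` sets of `L` blocks of `m` variables, `N` blocks in all, for the constant `κ` -/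
structure Sys (κ L n r : ℕ) where
  /-- the size of the blocks -/
  m : ℕ
  /-- the number of the blocks -/
  N : ℕ
  /-- the sets -/
  T : Fin r → Finset (Fin N)
  hm : 1 ≤ m
  hN : m * N ≤ n
  hT : ∀ i, (T i).card = L
  hc : ∀ S : Finset (Fin N), S.card ≤ 2 * κ * L → ∀ a ∈ S,
    (Finset.univ.filter fun i => a ∈ T i ∧ T i ⊆ S).card ≤ m

theorem sys_poly (q κ : ℕ) (hq : 1 ≤ q) : ∃ M : ℕ, 0 < M ∧
    ∀ n r : ℕ, r * M ≤ n ^ q → Nonempty (Sys κ q n r) := by
  classical
  obtain ⟨D, hD⟩ : ∃ D, D = 2 * κ * q + q := ⟨_, rfl⟩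
  obtain ⟨m, hm⟩ : ∃ m, m = (D - 1).choose (q - 1) := ⟨_, rfl⟩
  have hm1 : 1 ≤ m := by
    rw [hm]
    exact Nat.choose_pos (by omega)
  refine ⟨(4 * q * m) ^ q * q.factorial, Nat.mul_pos (Nat.pow_pos (by
    have := Nat.mul_le_mul hq hm1
    nlinarith)) (Nat.factorial_pos q), ?_⟩
  intro n r hr
  have hrc := count_aux hq hm1 hr
  have hemb : Nonempty (Fin r ↪ ↥((Finset.univ : Finset (Fin (n / m))).powersetCard q)) := by
    refine Function.Embedding.nonempty_of_card_le ?_
    rw [Fintype.card_fin, Fintype.card_coe, Finset.card_powersetCard, Finset.card_univ,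
      Fintype.card_fin]
    exact hrc
  obtain ⟨φ⟩ := hemb
  have hT : ∀ i, (φ i).1.card = q := fun i => (Finset.mem_powersetCard.1 (φ i).2).2
  have hw : ∑ j ∈ Finset.range D, (fun x => if x = q then 1 else 0) (j + 1) * (D - 1).choose j ≤
      m := by
    rw [Finset.sum_eq_single (q - 1)]
    · simp only
      rw [if_pos (by omega), one_mul, hm]
    · intro j _ hj
      simp only
      rw [if_neg (by omega), zero_mul]
    · intro h
      exfalso
      apply h
      rw [Finset.mem_range]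
      omega
  refine ⟨⟨m, n / m, fun i => (φ i).1, hm1, Nat.mul_div_le n m, hT, ?_⟩⟩
  intro S hS a _
  refine (Finset.card_le_card ?_).trans (Pool.Agent.W431.Blk.count_le (D := D) (m := m)
    (w := fun x => if x = q then 1 else 0) hw (d := fun _ : Fin r => q)
    (T := fun i => (φ i).1) ?_ S (by omega) a)
  · intro i hi
    have h2 := (Finset.mem_filter.1 hi).2
    exact Finset.mem_filter.2 ⟨Finset.mem_univ i, ⟨by omega, h2.2⟩, h2.1⟩
  · intro U
    by_cases hU : U.card = q
    · rw [if_pos hU, Finset.card_le_one]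
      intro i hi j hj
      have h2 := (Finset.mem_filter.1 hi).2.2
      have h3 := (Finset.mem_filter.1 hj).2.2
      exact φ.injective (Subtype.ext (h2.trans h3.symm))
    · rw [Finset.filter_false_of_mem]
      · simp
      · rintro i _ ⟨_, h⟩
        exact hU (by rw [← h]; exact hT i)

theorem sys_exp (κ : ℕ) : ∃ M : ℕ, 0 < M ∧
    ∀ n L r : ℕ, 1 ≤ L → L ≤ n / M → r ≤ 2 ^ L → Nonempty (Sys κ L n r) := by
  classical
  obtain ⟨m, hm⟩ : ∃ m, m = 4 * (κ + 1) := ⟨_, rfl⟩
  have hm1 : 1 ≤ m := by omega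
  have hM : 0 < m * 16 ^ m := Nat.mul_pos hm1 (Nat.pow_pos (by norm_num))
  refine ⟨m * 16 ^ m, hM, ?_⟩
  intro n L r hL1 hLn hr
  obtain ⟨T, hT1, hT2⟩ := exists_family (κ := κ + 1) (L := L) (by omega) hm hL1
  refine ⟨⟨m, L * 16 ^ m, fun i => T (Fin.castLE hr i), hm1, ?_, fun i => hT1 _, ?_⟩⟩
  · calc m * (L * 16 ^ m) = L * (m * 16 ^ m) := by ring
      _ ≤ n / (m * 16 ^ m) * (m * 16 ^ m) := Nat.mul_le_mul_right _ hLn
      _ ≤ n := Nat.div_mul_le_self _ _
  · intro S hS a _
    refine le_trans ?_ (hT2 S (hS.trans (Nat.mul_le_mul_right _ (by omega))))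
    refine Finset.card_le_card_of_injOn (Fin.castLE hr) ?_ ?_
    · intro i hi
      have h3 := (Finset.mem_filter.1 (Finset.mem_coe.1 hi)).2.2
      exact Finset.mem_coe.2 (Finset.mem_filter.2 ⟨Finset.mem_univ _, h3⟩)
    · intro i _ j _ hij
      exact Fin.castLE_injective hr hij

end Pool.Agent.Q248.BDP
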