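import Mathlib
import Pool.Agent.Q248.BDP.Main
import Pool.Agent.Q248.BDP.Code
import Pool.Agent.Q248.BDP.Sys
import Pool.Agent.TH130.FP.FinalA

/-!
Powers of generic forms.
-/

set_option autoImplicit false
set_option linter.unusedSectionVars false

namespace Pool.Agent.Q248.BDP

open MvPolynomial H350MG Pool.Agent.W431.Blk

noncomputable section

lemma qe_pow {K : Type} [Field K] {σ β : Type} [Fintype β] [DecidableEq β] {m : ℕ}
    (B : Blocks σ β m) (t : K) (ν : σ →₀ ℕ) (x : β → ℕ) (q : ℕ) :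
    qe B t (q • ν) (fun a => q * x a) = qe B t ν x ^ q := by
  unfold qe pe
  rw [mul_pow, monomial_pow, one_pow, ← Finset.prod_pow]
  congr 1
  refine Finset.prod_congr rfl fun a _ => ?_
  rw [← pow_mul, mul_comm]

/-- the exponents -/
lemma exists_exponents' {r N : ℕ} {d s : Fin r → ℕ} (hs : ∀ i, 1 ≤ s i)
    {T : Fin r → Finset (Fin N)} (hed : ∀ i, s i * (T i).card ≤ d i) :
    ∃ ex : Fin r → Fin N → ℕ, (∀ i, (T i).card ≠ 0 → ∑ a, ex i a = d i) ∧
      (∀ i, ∀ a, ex i a = 0 ∨ s i ≤ ex i a) ∧ (∀ i, ∀ a, ex i a ≠ 0 ↔ a ∈ T i) := by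
  classical
  have h1 : ∀ i, ∃ x : Fin N → ℕ, ((T i).card ≠ 0 → ∑ a, x a = d i) ∧
      (∀ a, x a = 0 ∨ s i ≤ x a) ∧ (∀ a, x a ≠ 0 ↔ a ∈ T i) := by
    intro i
    obtain ⟨ex, h1, h2, h3⟩ := exists_exponents (hs i) (d := fun _ : Fin 1 => d i)
      (T := fun _ => T i) (fun _ => hed i)
    exact ⟨ex 0, h1 0, h2 0, h3 0⟩
  choose ex hex using h1
  exact ⟨ex, fun i => (hex i).1, fun i => (hex i).2.1, fun i => (hex i).2.2⟩

/-- powers of generic forms -/
theorem main_pow (D m s c N : ℕ) (hm : 0 < m) (hs : 1 ≤ s)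
    (K : Type) [Field K] [CharZero K] (n r : ℕ) (hn : c + m * N ≤ n) (δ q u : Fin r → ℕ)
    (T : Fin r → Finset (Fin N)) (hδ : ∀ i, 1 ≤ δ i) (hq : ∀ i, 1 ≤ q i) (hu : ∀ i, 1 ≤ u i)
    (hsu : ∀ i, s ≤ u i * q i) (hed : ∀ i, u i * (T i).card ≤ δ i)
    (hc0 : (Finset.univ.filter fun i => T i = ∅).card ≤ c)
    (hc : ∀ S : Finset (Fin N), S.card ≤ D → ∀ a ∈ S,
      (Finset.univ.filter fun i => a ∈ T i ∧ T i ⊆ S).card ≤ m) :
    ∃ Φ : MvPolynomial (Cf (Fin n) δ) K, Φ ≠ 0 ∧ ∀ x, eval x Φ ≠ 0 → ∀ k < s * (D + 1),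
      qd (fList (fun i => δ i * q i) (fun i => fc x i ^ q i)) k =
        E (gj (Fin n)) (List.ofFn fun i => δ i * q i) k := by
  classical
  have hmN : m * N ≤ n := by omega
  let e : Fin r → ℕ := fun i => (T i).card
  have he0 : ∀ i, e i = 0 ↔ T i = ∅ := fun i => Finset.card_eq_zero
  obtain ⟨y, hy1, hy2, hy3⟩ := exists_exponents' hu hed
  obtain ⟨ν, hν1, hν2, hν3, hν4⟩ := exists_outer hm hn δ e (by
    refine le_trans (Finset.card_le_card ?_) hc0
    intro i hi
    exact Finset.mem_filter.2 ⟨Finset.mem_univ i, (he0 i).1 (Finset.mem_filter.1 hi).2⟩)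
  let ex : Fin r → Fin N → ℕ := fun i a => q i * y i a
  have hex3 : ∀ i a, ex i a ≠ 0 ↔ a ∈ T i := by
    intro i a
    rw [← hy3 i a]
    have := hq i
    constructor
    · intro h h0
      apply h
      simp only [ex]
      rw [h0, mul_zero]
    · intro h
      exact Nat.mul_ne_zero (by omega) h
  have hexs : ∀ i, e i ≤ D → ∀ a, ex i a = 0 ∨ s ≤ ex i a := by
    intro i _ a
    rcases hy2 i a with h | h
    · left; simp only [ex]; rw [h, mul_zero]
    · right
      calc s ≤ u i * q i := hsu i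
        _ = q i * u i := mul_comm _ _
        _ ≤ ex i a := Nat.mul_le_mul_left _ h
  have hbase : ∀ i, (ν i).degree + ∑ a, y i a = δ i := by
    intro i
    by_cases h : e i = 0
    · have h1 : ∀ a, y i a = 0 := by
        intro a
        by_contra h2
        have h3 := (hy3 i a).1 h2
        rw [(he0 i).1 h] at h3
        simp at h3
      rw [hν3 i h, Finset.sum_eq_zero (fun a _ => h1 a), add_zero]
    · rw [hν4 i h, hy1 i h, map_zero, zero_add]
  have hex : ∀ i, e i ≤ D → (q i • ν i).degree + ∑ a, ex i a = δ i * q i := by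
    intro i _
    simp only [ex]
    rw [← Finset.mul_sum, map_nsmul, smul_eq_mul, ← mul_add, hbase, mul_comm]
  have hact : ∀ i, δ i * q i < s * (D + 1) → e i ≤ D := by
    intro i hi
    have h1 : s * e i ≤ δ i * q i := by
      calc s * e i ≤ u i * q i * e i := Nat.mul_le_mul_right _ (hsu i)
        _ = u i * (T i).card * q i := by simp only [e]; ring
        _ ≤ δ i * q i := Nat.mul_le_mul_right _ (hed i)
    have h2 : s * e i < s * (D + 1) := by omega
    have := Nat.lt_of_mul_lt_mul_left h2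
    omega
  have hcount : ∀ S : Finset (Fin N), S.card ≤ D → ∀ a, ∀ A : Finset (Fin r),
      (∀ i ∈ A, (e i ≤ D ∧ ∀ b, ex i b ≠ 0 → b ∈ S) ∧ ex i a ≠ 0) → A.card ≤ m := by
    intro S hS a A hA
    rcases A.eq_empty_or_nonempty with rfl | ⟨i0, hi0⟩
    · rw [Finset.card_empty]; exact Nat.zero_le _
    have haS : a ∈ S := (hA i0 hi0).1.2 a (hA i0 hi0).2
    refine (Finset.card_le_card ?_).trans (hc S hS a haS)
    intro i hi
    obtain ⟨⟨h1, h2⟩, h3⟩ := hA i hi
    refine Finset.mem_filter.2 ⟨Finset.mem_univ i, (hex3 i a).1 h3, ?_⟩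
    intro b hb
    exact h2 b ((hex3 i b).2 hb)
  have hν1' : ∀ i v, (q i • ν i) v ≠ 0 → (nBlocks n m N hm hmN).lab v = none := by
    intro i v hv
    refine hν1 i v fun h => hv ?_
    rw [Finsupp.smul_apply, h, smul_zero]
  have hν2' : ∀ i i' v, i ≠ i' → (q i • ν i) v ≠ 0 → (q i' • ν i') v = 0 := by
    intro i i' v hne hv
    have h1 : ν i v ≠ 0 := fun h => hv (by rw [Finsupp.smul_apply, h, smul_zero])
    rw [Finsupp.smul_apply, hν2 i i' v hne h1, smul_zero]
  have hfam := qd_family (K := K) (nBlocks n m N hm hmN) hm (s := s) D (fun i => δ i * q i) e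
    (fun i => q i • ν i) hν1' hν2' ex hex hexs hact hcount (List.finRange r)
    (List.nodup_finRange r)
  -- the base forms
  let G : Fin r → MvPolynomial (Fin n) K := fun i =>
    if e i ≤ D then qe (nBlocks n m N hm hmN) ((i : ℕ) : K) (ν i) (y i) else 0
  have hG : ∀ i, G i ∈ Rj K (Fin n) (δ i) := by
    intro i
    simp only [G]
    split_ifs
    · have h1 := qe_hom (nBlocks n m N hm hmN) ((i : ℕ) : K) (ν i) (y i)
      rw [hbase i] at h1
      exact h1
    · exact Submodule.zero_mem _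
  have hGF : ∀ i, G i ^ q i =
      FP (K := K) (nBlocks n m N hm hmN) D (fun i => q i • ν i) e ex i := by
    intro i
    simp only [G]
    unfold FP
    split_ifs
    · exact (qe_pow _ _ _ _ _).symm
    · exact zero_pow (by have := hq i; omega)
  let c0 : Cf (Fin n) δ → K := fun s => (G s.1).coeff s.2.1
  have hc0' : fc c0 = G := funext fun i => fc_coeff (f := G) (fun i => hG i) i
  choose Φ h0 hΦ using fun j => Pool.Agent.TH130.FP.generic_Jpow (K := K) δ q j c0
  refine ⟨∏ j ∈ Finset.range (s * (D + 1)), Φ j, Finset.prod_ne_zero_iff.2 fun j _ => h0 j, ?_⟩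
  intro x hcc
  have hlist : fList (fun i => δ i * q i) (fun i => fc c0 i ^ q i) = (List.finRange r).map fun i =>
      (FP (K := K) (nBlocks n m N hm hmN) D (fun i => q i • ν i) e ex i, δ i * q i) := by
    unfold fList
    rw [List.ofFn_eq_map, hc0']
    refine List.map_congr_left fun i _ => ?_
    exact Prod.ext (hGF i) rfl
  have hlist' : (List.ofFn fun i => δ i * q i) = (List.finRange r).map fun i => δ i * q i :=
    List.ofFn_eq_map
  have hsnd : (fList (fun i => δ i * q i) (fun i => fc x i ^ q i)).map Prod.snd =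
      List.ofFn fun i => δ i * q i := by
    unfold fList
    rw [List.map_ofFn]
    rfl
  have hpos : 0 < s * (D + 1) := Nat.mul_pos hs (Nat.succ_pos D)
  have key := qd_EQ (s * (D + 1) - 1) (fList (fun i => δ i * q i) (fun i => fc x i ^ q i)) (by
    intro a ha
    obtain ⟨i, rfl⟩ := mem_fList.1 ha
    exact ⟨Pool.Agent.TH130.FP.fcpow_hom x i, Nat.mul_pos (hδ i) (hq i)⟩) (by
    intro j hj
    have h1 : eval x (Φ j) ≠ 0 := by
      intro h
      apply hcc
      rw [map_prod]
      exact Finset.prod_eq_zero (Finset.mem_range.2 (by omega)) h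
    have h2 := hΦ j x h1
    have h3 := hfam j (by omega)
    rw [hsnd, hlist', ← h3]
    rw [hlist] at h2
    have h4 : (Module.finrank K (J ((List.finRange r).map fun i =>
      (FP (K := K) (nBlocks n m N hm hmN) D (fun i => q i • ν i) e ex i, δ i * q i)) j) : ℤ) ≤
      (Module.finrank K (J (fList (fun i => δ i * q i) (fun i => fc x i ^ q i)) j) : ℤ) := by
      exact_mod_cast h2
    unfold qd
    linarith)
  intro j hj
  have := key j (by omega)
  rw [hsnd] at this
  exact this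

/-- powers of generic forms of equal degree -/
theorem pow_of_sys {κ L n r : ℕ} (X : Sys κ L n r) (hL : 1 ≤ L)
    (K : Type) [Field K] [CharZero K] (d q : ℕ) (hd : L ≤ d) (hq : 1 ≤ q) :
    ∃ Φ : MvPolynomial (Cf (Fin n) (fun _ : Fin r => d)) K, Φ ≠ 0 ∧ ∀ x, eval x Φ ≠ 0 →
      ∀ k < κ * (d * q),
      qd (fList (fun _ : Fin r => d * q) (fun i => fc x i ^ q)) k =
        E (gj (Fin n)) (List.ofFn fun _ : Fin r => d * q) k := by
  classical
  obtain ⟨u, hu⟩ : ∃ u, u = d / L := ⟨_, rfl⟩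
  have hu1 : 1 ≤ u := by
    rw [hu]
    exact (Nat.one_le_div_iff (by omega)).2 hd
  have huL : u * L ≤ d := by
    rw [hu]
    exact Nat.div_mul_le_self d L
  have huL' : d ≤ 2 * (u * L) := by
    have h1 : d < L * (u + 1) := by
      rw [hu]
      exact Nat.lt_mul_div_succ d (by omega)
    nlinarith
  obtain ⟨Φ, h0, hΦ⟩ := main_pow (2 * κ * L) X.m (u * q) 0 X.N X.hm (Nat.mul_pos hu1 hq) K n r
    (by rw [zero_add]; exact X.hN) (fun _ => d) (fun _ => q) (fun _ => u) X.T
    (fun _ => by omega) (fun _ => hq) (fun _ => hu1) (fun _ => le_rfl)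
    (fun i => by rw [X.hT i]; exact huL) (by
      rw [Finset.filter_false_of_mem]
      · simp
      · intro i _ h
        have h2 := X.hT i
        rw [h, Finset.card_empty] at h2
        omega) X.hc
  refine ⟨Φ, h0, fun x hx k hk => hΦ x hx k (lt_of_lt_of_le hk ?_)⟩
  calc κ * (d * q) ≤ κ * (2 * (u * L) * q) := Nat.mul_le_mul_left _ (Nat.mul_le_mul_right _ huL')
    _ = u * q * (2 * κ * L) := by ring
    _ ≤ u * q * (2 * κ * L + 1) := Nat.mul_le_mul_left _ (Nat.le_succ _)

/-- powers of one form -/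
theorem pow_one_form (κ n r : ℕ) (hn : 1 ≤ n) (hr : r ≤ 1)
    (K : Type) [Field K] [CharZero K] (d q : ℕ) (hd : 1 ≤ d) (hq : 1 ≤ q) :
    ∃ Φ : MvPolynomial (Cf (Fin n) (fun _ : Fin r => d)) K, Φ ≠ 0 ∧ ∀ x, eval x Φ ≠ 0 →
      ∀ k < κ * (d * q),
      qd (fList (fun _ : Fin r => d * q) (fun i => fc x i ^ q)) k =
        E (gj (Fin n)) (List.ofFn fun _ : Fin r => d * q) k := by
  classical
  obtain ⟨Φ, h0, hΦ⟩ := main_pow (κ * (d * q)) 1 1 1 0 Nat.one_pos le_rfl K n r
    (by omega) (fun _ => d) (fun _ => q) (fun _ => 1) (fun _ => ∅)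
    (fun _ => hd) (fun _ => hq) (fun _ => le_rfl) (fun _ => by omega)
    (fun i => by simp) (by
      refine (Finset.card_filter_le _ _).trans ?_
      rw [Finset.card_univ, Fintype.card_fin]
      exact hr) (fun S _ a _ => by simp)
  exact ⟨Φ, h0, fun x hx k hk => hΦ x hx k (by omega)⟩

end

end Pool.Agent.Q248.BDP
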