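import Mathlib
import Pool.Agent.Q248.BDP.Pow
import Pool.Agent.Y233.Fr.Equal
import Pool.Agent.W431.Frob.Spec

/-!
Spaces of forms of the same degree.
-/

set_option autoImplicit false
set_option linter.unusedSectionVars false

namespace Pool.Agent.Q248.BDP

open MvPolynomial H350MG

noncomputable section

/-- the space `S_j V` -/
abbrev sj {K : Type} [Field K] {n : ℕ} (j : ℕ) (V : Submodule K (MvPolynomial (Fin n) K)) :
    Submodule K (MvPolynomial (Fin n) K) :=
  Submodule.span K (Set.image2 (· * ·)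
    ((homogeneousSubmodule (Fin n) K j : Submodule K (MvPolynomial (Fin n) K)) :
      Set (MvPolynomial (Fin n) K)) (V : Set (MvPolynomial (Fin n) K)))

/-- the degree `j` part of the ideal -/
abbrev pt {K : Type} [Field K] {n u : ℕ} (f : Fin u → MvPolynomial (Fin n) K) (j : ℕ) :
    Submodule K (MvPolynomial (Fin n) K) :=
  Submodule.restrictScalars K (Ideal.span (Set.range f)) ⊓ homogeneousSubmodule (Fin n) K j

lemma sj_pt {K : Type} [Field K] {n u d : ℕ} {f : Fin u → MvPolynomial (Fin n) K}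
    (hf : ∀ i, (f i).IsHomogeneous d) (j : ℕ) : sj j (pt f d) = pt f (j + d) :=
  Pool.Agent.Y233.FrE.pr_part hf j

lemma E_self (g : ℕ → ℤ) {d : ℕ} (hd : 1 ≤ d) (u : ℕ) :
    E g (List.ofFn fun _ : Fin u => d) 0 = g 0 ∧
      E g (List.ofFn fun _ : Fin u => d) d = g d - u * g 0 := by
  induction u with
  | zero => simp [E]
  | succ u ih =>
    rw [List.ofFn_succ]
    simp only [E]
    rw [if_neg (by omega), if_pos le_rfl, Nat.sub_self, ih.1, ih.2]
    constructor
    · ring
    · push_cast
      ring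

theorem transfer (K : Type) [Field K] [CharZero K] (n u d k₀ : ℕ) (hd : 1 ≤ d)
    (h : ∃ Φ : MvPolynomial (Cf (Fin n) (fun _ : Fin u => d)) K, Φ ≠ 0 ∧ ∀ x, eval x Φ ≠ 0 →
      ∀ k < k₀, qd (fList (fun _ : Fin u => d) (fc x)) k =
        E (gj (Fin n)) (List.ofFn fun _ : Fin u => d) k) (j : ℕ) (hj : j + d < k₀) :
    (∀ k < k₀, 0 ≤ E (gj (Fin n)) (List.ofFn fun _ : Fin u => d) k) ∧
    (∀ V : Submodule K (MvPolynomial (Fin n) K), V ≤ homogeneousSubmodule (Fin n) K d →
        Module.finrank K V = u →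
        (Module.finrank K ↥(sj j V) : ℤ) ≤
          (Module.finrank K (homogeneousSubmodule (Fin n) K (j + d)) : ℤ) -
            E (gj (Fin n)) (List.ofFn fun _ : Fin u => d) (j + d)) ∧
    (∃ V : Submodule K (MvPolynomial (Fin n) K), V ≤ homogeneousSubmodule (Fin n) K d ∧
        Module.finrank K V = u ∧
        (Module.finrank K ↥(sj j V) : ℤ) =
          (Module.finrank K (homogeneousSubmodule (Fin n) K (j + d)) : ℤ) -
            E (gj (Fin n)) (List.ofFn fun _ : Fin u => d) (j + d)) := by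
  classical
  obtain ⟨Φ, h0, hΦ⟩ := h
  have hfr : ∀ k, (Module.finrank K (homogeneousSubmodule (Fin n) K k) : ℤ) = gj (Fin n) k :=
    fun k => finrank_Rj' k
  -- a point
  have hpt : ∀ Ψ : MvPolynomial (Cf (Fin n) (fun _ : Fin u => d)) K, Ψ ≠ 0 →
      ∃ x, eval x Ψ ≠ 0 := by
    intro Ψ hΨ
    by_contra hcon
    push Not at hcon
    exact hΨ (MvPolynomial.funext fun z => by rw [hcon z, map_zero])
  have hhom : ∀ x : Cf (Fin n) (fun _ : Fin u => d) → K, ∀ i, (fc x i).IsHomogeneous d :=
    fun x i => fc_hom x i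
  have hJ : ∀ f : Fin u → MvPolynomial (Fin n) K, (∀ i, (f i).IsHomogeneous d) → ∀ k,
      pt f k = J (fList (fun _ : Fin u => d) f) k := by
    intro f hf k
    exact span_inf_eq (d := fun _ : Fin u => d) hf k
  obtain ⟨x0, hx0⟩ := hpt Φ h0
  refine ⟨?_, ?_, ?_⟩
  · intro k hk
    rw [← hΦ x0 hx0 k hk]
    exact Pool.Agent.W431.Frob.qd_nonneg (d := fun _ : Fin u => d) (F := fc x0)
      (fun s => hhom x0 s) k
  · intro V hV hVu
    have : FiniteDimensional K V := Submodule.finiteDimensional_of_le hV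
    let b := Module.finBasisOfFinrankEq K V hVu
    let f : Fin u → MvPolynomial (Fin n) K := fun i => (b i : MvPolynomial (Fin n) K)
    have hf : ∀ i, (f i).IsHomogeneous d := fun i => hV (b i).2
    have hVs : ∀ y ∈ V, y ∈ Ideal.span (Set.range f) := by
      intro y hy
      have h1 : (⟨y, hy⟩ : V) ∈ Submodule.span K (Set.range b) := b.mem_span _
      have h2 : y ∈ Submodule.span K (Set.range f) := by
        have h3 := Submodule.mem_map_of_mem (f := V.subtype) h1
        rw [Submodule.map_span, ← Set.range_comp] at h3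
        exact h3
      exact Submodule.span_subset_span K (MvPolynomial (Fin n) K) _ h2
    have hle : sj j V ≤ pt f (j + d) := by
      refine Submodule.span_le.2 ?_
      rintro _ ⟨x, hx, y, hy, rfl⟩
      exact ⟨Ideal.mul_mem_left _ _ (hVs y hy), IsHomogeneous.mul hx (hV hy)⟩
    let c0 : Cf (Fin n) (fun _ : Fin u => d) → K := fun s => (f s.1).coeff s.2.1
    have hc0 : fc c0 = f := funext fun i => fc_coeff (d := fun _ : Fin u => d) hf i
    obtain ⟨Ψ, hΨ0, hΨ⟩ := generic_J (𝕜 := K) (fun _ : Fin u => d) (j + d) c0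
    obtain ⟨x, hx⟩ := hpt (Φ * Ψ) (mul_ne_zero h0 hΨ0)
    rw [map_mul] at hx
    have h1 := hΨ x (right_ne_zero_of_mul hx)
    have h2 := hΦ x (left_ne_zero_of_mul hx) (j + d) hj
    rw [hc0, ← hJ f hf] at h1
    have hfd : FiniteDimensional K (pt f (j + d)) :=
      Submodule.finiteDimensional_of_le inf_le_right
    have h3 := Submodule.finrank_mono hle
    have h4 : (Module.finrank K ↥(sj j V) : ℤ) ≤
        (Module.finrank K (J (fList (fun _ : Fin u => d) (fc x)) (j + d)) : ℤ) := by
      exact_mod_cast h3.trans h1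
    rw [hfr]
    unfold qd at h2
    linarith
  · have h1 : ∀ k < k₀, (Module.finrank K (pt (fc x0) k) : ℤ) =
        gj (Fin n) k - E (gj (Fin n)) (List.ofFn fun _ : Fin u => d) k := by
      intro k hk
      have h2 := hΦ x0 hx0 k hk
      rw [hJ (fc x0) (hhom x0) k]
      unfold qd at h2
      linarith
    refine ⟨pt (fc x0) d, inf_le_right, ?_, ?_⟩
    · have h2 := h1 d (by omega)
      rw [(E_self (gj (Fin n)) hd u).2] at h2
      have h3 : gj (Fin n) 0 = 1 := by
        unfold gj
        rw [Nat.choose_zero_right, Nat.cast_one]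
      rw [h3] at h2
      have h4 : (Module.finrank K (pt (fc x0) d) : ℤ) = (u : ℤ) := by linarith
      exact_mod_cast h4
    · rw [sj_pt (hhom x0) j, hfr]
      exact h1 _ hj

end

end Pool.Agent.Q248.BDP
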