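import Mathlib
import Pool.Agent.Q248.BDP.Sys

/-!
Large families of sets of which only few are contained in a set of moderate size, by counting.
-/

set_option autoImplicit false
set_option linter.unusedSectionVars false

namespace Pool.Agent.Q248.BDP

open Finset

/-- the words whose graph is contained in a set -/
def ins {L q : ℕ} (S : Finset (Fin (L * q))) : Finset (Fin L → Fin q) :=
  univ.filter fun f => gr f ⊆ S

lemma ins_eq {L q : ℕ} (S : Finset (Fin (L * q))) :
    ins S = Fintype.piFinset fun x : Fin L => univ.filter fun c : Fin q =>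
      finProdFinEquiv (x, c) ∈ S := by
  ext f
  unfold ins
  rw [mem_filter, Fintype.mem_piFinset]
  constructor
  · rintro ⟨-, h⟩ x
    exact mem_filter.2 ⟨mem_univ _, h (mem_gr.2 ⟨x, rfl⟩)⟩
  · intro h
    refine ⟨mem_univ _, fun a ha => ?_⟩
    obtain ⟨x, rfl⟩ := mem_gr.1 ha
    exact (mem_filter.1 (h x)).2

lemma sum_fib {L q : ℕ} (S : Finset (Fin (L * q))) :
    ∑ x : Fin L, (univ.filter fun c : Fin q => finProdFinEquiv (x, c) ∈ S).card = S.card := by
  classical
  have h1 : S = univ.biUnion fun x : Fin L =>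
      (univ.filter fun c : Fin q => finProdFinEquiv (x, c) ∈ S).image
        fun c => finProdFinEquiv (x, c) := by
    ext a
    rw [mem_biUnion]
    constructor
    · intro ha
      obtain ⟨⟨x, c⟩, rfl⟩ := finProdFinEquiv.surjective a
      exact ⟨x, mem_univ _, mem_image.2 ⟨c, mem_filter.2 ⟨mem_univ _, ha⟩, rfl⟩⟩
    · rintro ⟨x, -, h⟩
      obtain ⟨c, hc, rfl⟩ := mem_image.1 h
      exact (mem_filter.1 hc).2
  conv_rhs => rw [h1]
  rw [card_biUnion]
  · refine sum_congr rfl fun x _ => ?_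
    rw [card_image_of_injective]
    intro c c' h
    exact (Prod.mk.inj (finProdFinEquiv.injective h)).2
  · intro x _ y _ hxy
    rw [Function.onFun, disjoint_left]
    intro a ha hb
    obtain ⟨c, -, hc⟩ := mem_image.1 ha
    obtain ⟨c', -, hc'⟩ := mem_image.1 hb
    apply hxy
    exact (Prod.mk.inj (finProdFinEquiv.injective (hc.trans hc'.symm))).1

/-- few words are contained in a small set -/
lemma card_ins {L q a : ℕ} (ha : 1 ≤ a) (S : Finset (Fin (L * q))) (hS : S.card ≤ a * L) :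
    (ins S).card ≤ a ^ L := by
  rw [ins_eq, Fintype.card_piFinset]
  obtain ⟨s, hs⟩ : ∃ s : Fin L → ℕ, s = fun x =>
    (univ.filter fun c : Fin q => finProdFinEquiv (x, c) ∈ S).card := ⟨_, rfl⟩
  have h1 : ∑ x, s x ≤ a * L := by
    rw [hs]
    exact (sum_fib S).trans_le hS
  have h2 : ∏ x, s x ≤ a ^ L := by
    have ha0 : (0 : ℝ) < a := by exact_mod_cast ha
    have h3 : ∏ x, ((s x : ℝ) / a) ≤ 1 := by
      calc ∏ x, ((s x : ℝ) / a) ≤ ∏ x, Real.exp ((s x : ℝ) / a - 1) := by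
            refine prod_le_prod (fun x _ => by positivity) fun x _ => ?_
            have := Real.add_one_le_exp ((s x : ℝ) / a - 1)
            linarith
        _ = Real.exp (∑ x, ((s x : ℝ) / a - 1)) := (Real.exp_sum _ _).symm
        _ ≤ Real.exp 0 := by
            refine Real.exp_le_exp.2 ?_
            rw [sum_sub_distrib, ← sum_div, sum_const, card_univ, Fintype.card_fin, nsmul_eq_mul,
              mul_one, sub_nonpos, div_le_iff₀ ha0]
            have : ((∑ x, s x : ℕ) : ℝ) ≤ ((a * L : ℕ) : ℝ) := by exact_mod_cast h1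
            push_cast at this
            linarith
        _ = 1 := Real.exp_zero
    rw [prod_div_distrib, prod_const, card_univ, Fintype.card_fin, div_le_one (by positivity)] at h3
    exact_mod_cast h3
  rw [hs] at h2
  exact h2

/-- the number of the sets -/
lemma choose_bound (L q a : ℕ) (ha : 1 ≤ a) (hL : 1 ≤ L) :
    (L * q).choose (a * L) * a ^ (a * L) ≤ (3 * q) ^ (a * L) := by
  obtain ⟨b, hb⟩ : ∃ b, b = a * L := ⟨_, rfl⟩
  have hb1 : 1 ≤ b := by rw [hb]; exact Nat.mul_pos ha hL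
  have h1 : (((L * q).choose b : ℕ) : ℝ) ≤ ((L * q : ℕ) : ℝ) ^ b / (b.factorial : ℝ) :=
    Nat.choose_le_pow_div b (L * q)
  have h2 : (b : ℝ) ^ b / (b.factorial : ℝ) ≤ Real.exp b :=
    Real.pow_div_factorial_le_exp _ (by positivity) b
  have h3 : Real.exp b ≤ 3 ^ b := by
    have h4 : Real.exp 1 ≤ 3 := by
      have := Real.exp_one_lt_d9
      linarith
    calc Real.exp b = Real.exp 1 ^ b := by rw [← Real.exp_nat_mul, mul_one]
      _ ≤ 3 ^ b := pow_le_pow_left₀ (Real.exp_pos 1).le h4 b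
  have hf : (0 : ℝ) < b.factorial := by exact_mod_cast Nat.factorial_pos b
  have h5 : (((L * q).choose b : ℕ) : ℝ) * (b : ℝ) ^ b ≤ ((L * q : ℕ) : ℝ) ^ b * 3 ^ b := by
    calc (((L * q).choose b : ℕ) : ℝ) * (b : ℝ) ^ b
        ≤ ((L * q : ℕ) : ℝ) ^ b / (b.factorial : ℝ) * (b : ℝ) ^ b :=
          mul_le_mul_of_nonneg_right h1 (by positivity)
      _ = ((L * q : ℕ) : ℝ) ^ b * ((b : ℝ) ^ b / (b.factorial : ℝ)) := by ring
      _ ≤ ((L * q : ℕ) : ℝ) ^ b * 3 ^ b :=
          mul_le_mul_of_nonneg_left (h2.trans h3) (by positivity)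
  have h6 : (L * q).choose b * b ^ b ≤ (L * q) ^ b * 3 ^ b := by exact_mod_cast h5
  have h7 : L ^ b * ((L * q).choose b * a ^ b) ≤ L ^ b * (3 * q) ^ b := by
    calc L ^ b * ((L * q).choose b * a ^ b) = (L * q).choose b * (a * L) ^ b := by
          rw [mul_pow]; ring
      _ = (L * q).choose b * b ^ b := by rw [hb]
      _ ≤ (L * q) ^ b * 3 ^ b := h6
      _ = L ^ b * (3 * q) ^ b := by rw [mul_pow, mul_pow]; ring
  rw [hb] at h7
  exact Nat.le_of_mul_le_mul_left h7 (Nat.pow_pos hL)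

/-- the tuples of words of which some are contained in a given set -/
lemma card_tuples {L q r : ℕ} (S : Finset (Fin (L * q))) (A : Finset (Fin r)) :
    (univ.filter fun W : Fin r → Fin L → Fin q => ∀ i ∈ A, W i ∈ ins S).card =
      (ins S).card ^ A.card * (q ^ L) ^ (r - A.card) := by
  classical
  have h1 : (univ.filter fun W : Fin r → Fin L → Fin q => ∀ i ∈ A, W i ∈ ins S) =
      Fintype.piFinset fun i => if i ∈ A then ins S else univ := by
    ext W
    rw [mem_filter, Fintype.mem_piFinset]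
    constructor
    · rintro ⟨-, h⟩ i
      split_ifs with hi
      · exact h i hi
      · exact mem_univ _
    · intro h
      refine ⟨mem_univ _, fun i hi => ?_⟩
      have := h i
      rw [if_pos hi] at this
      exact this
  rw [h1, Fintype.card_piFinset]
  have h2 : ∀ i, (if i ∈ A then ins S else univ).card =
      if i ∈ A then (ins S).card else q ^ L := by
    intro i
    split_ifs
    · rfl
    · rw [card_univ, Fintype.card_fun, Fintype.card_fin, Fintype.card_fin]
  rw [prod_congr rfl fun i _ => h2 i, prod_ite, prod_const, prod_const]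
  congr 2
  · congr 1
    ext i
    simp
  · rw [filter_not, card_sdiff_of_subset (filter_subset _ _), card_univ, Fintype.card_fin]
    congr 2
    ext i
    simp

/-- **Many sets of which fewer than `2 κ t` are contained in a set of moderate size.** -/
theorem exists_family' {κ t L q r : ℕ} (hκ : 1 ≤ κ) (ht : 1 ≤ t) (hL : 1 ≤ L) (hq : 2 * κ ≤ q)
    (h : 3 ^ L * r ^ t * (2 * κ) ^ (L * (t - 1)) < q ^ (L * (t - 1))) :
    ∃ T : Fin r → Finset (Fin (L * q)), (∀ i, (T i).card = L) ∧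
      ∀ S : Finset (Fin (L * q)), S.card ≤ 2 * κ * L →
        (univ.filter fun i => T i ⊆ S).card ≤ 2 * κ * t - 1 := by
  classical
  obtain ⟨a, ha⟩ : ∃ a, a = 2 * κ := ⟨_, rfl⟩
  rw [← ha] at h hq ⊢
  have ha1 : 1 ≤ a := by omega
  have hat : 1 ≤ a * t := Nat.mul_pos ha1 ht
  by_contra hcon
  push Not at hcon
  have hq1 : 1 ≤ q := ha1.trans hq
  have hbad : ∀ W : Fin r → Fin L → Fin q, ∃ S : Finset (Fin (L * q)), S.card = a * L ∧
      ∃ A : Finset (Fin r), A.card = a * t ∧ ∀ i ∈ A, W i ∈ ins S := by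
    intro W
    obtain ⟨S, hS1, hS2⟩ := hcon (fun i => gr (W i)) (fun i => card_gr _)
    have hcardle : a * L ≤ (univ : Finset (Fin (L * q))).card := by
      rw [card_univ, Fintype.card_fin, mul_comm L q]
      exact Nat.mul_le_mul_right _ hq
    obtain ⟨S', hSS', -, hS'⟩ := exists_subsuperset_card_eq (subset_univ S) hS1 hcardle
    have hS3 : a * t - 1 < (univ.filter fun i => gr (W i) ⊆ S).card := hS2
    have hS4 : a * t ≤ (univ.filter fun i => gr (W i) ⊆ S).card := by omega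
    obtain ⟨A, hA, hAc⟩ := exists_subset_card_eq hS4
    refine ⟨S', hS', A, hAc, fun i hi => ?_⟩
    exact mem_filter.2 ⟨mem_univ _, ((mem_filter.1 (hA hi)).2).trans hSS'⟩
  have hsub : (univ : Finset (Fin r → Fin L → Fin q)) ⊆
      ((univ : Finset (Fin (L * q))).powersetCard (a * L)).biUnion fun S =>
        ((univ : Finset (Fin r)).powersetCard (a * t)).biUnion fun A =>
          univ.filter fun W : Fin r → Fin L → Fin q => ∀ i ∈ A, W i ∈ ins S := by
    intro W _
    obtain ⟨S, hS, A, hA, hW⟩ := hbad W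
    rw [mem_biUnion]
    refine ⟨S, mem_powersetCard.2 ⟨subset_univ _, hS⟩, ?_⟩
    rw [mem_biUnion]
    exact ⟨A, mem_powersetCard.2 ⟨subset_univ _, hA⟩, mem_filter.2 ⟨mem_univ _, hW⟩⟩
  have h1 := card_le_card hsub
  rw [card_univ, Fintype.card_fun, Fintype.card_fun, Fintype.card_fin, Fintype.card_fin,
    Fintype.card_fin] at h1
  have h2 : (q ^ L) ^ r ≤ (L * q).choose (a * L) *
      (r.choose (a * t) * ((a ^ L) ^ (a * t) * (q ^ L) ^ (r - a * t))) := by
    refine h1.trans ?_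
    have hc1 : ((univ : Finset (Fin (L * q))).powersetCard (a * L)).card =
        (L * q).choose (a * L) := by
      rw [card_powersetCard, card_univ, Fintype.card_fin]
    rw [← hc1]
    refine card_biUnion_le_card_mul _ _ _ fun S hS => ?_
    have hc2 : ((univ : Finset (Fin r)).powersetCard (a * t)).card = r.choose (a * t) := by
      rw [card_powersetCard, card_univ, Fintype.card_fin]
    rw [← hc2]
    refine card_biUnion_le_card_mul _ _ _ fun A hA => ?_
    rw [card_tuples, (mem_powersetCard.1 hA).2]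
    refine Nat.mul_le_mul_right _ (Nat.pow_le_pow_left ?_ _)
    exact card_ins ha1 S ((mem_powersetCard.1 hS).2.le)
  -- there are enough words
  have hr : a * t ≤ r := by
    by_contra hlt
    push Not at hlt
    rw [Nat.choose_eq_zero_of_lt hlt, zero_mul, mul_zero] at h2
    have : 0 < (q ^ L) ^ r := Nat.pow_pos (Nat.pow_pos hq1)
    omega
  have h3 : (q ^ L) ^ (a * t) ≤ (L * q).choose (a * L) * (r ^ (a * t) * (a ^ L) ^ (a * t)) := by
    have hpos : 0 < (q ^ L) ^ (r - a * t) := Nat.pow_pos (Nat.pow_pos hq1)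
    refine Nat.le_of_mul_le_mul_right ?_ hpos
    calc (q ^ L) ^ (a * t) * (q ^ L) ^ (r - a * t) = (q ^ L) ^ r := by
          rw [← pow_add, Nat.add_sub_cancel' hr]
      _ ≤ _ := h2
      _ = (L * q).choose (a * L) * (r.choose (a * t) * (a ^ L) ^ (a * t)) *
          (q ^ L) ^ (r - a * t) := by ring
      _ ≤ (L * q).choose (a * L) * (r ^ (a * t) * (a ^ L) ^ (a * t)) *
          (q ^ L) ^ (r - a * t) := by
          refine Nat.mul_le_mul_right _ (Nat.mul_le_mul_left _ (Nat.mul_le_mul_right _ ?_))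
          exact Nat.choose_le_pow r (a * t)
  have h4 : (q ^ (L * t) * a ^ L) ^ a ≤ ((3 * q) ^ L * (r ^ t * a ^ (L * t))) ^ a := by
    calc (q ^ (L * t) * a ^ L) ^ a = (q ^ L) ^ (a * t) * a ^ (a * L) := by
          rw [mul_pow, ← pow_mul, ← pow_mul, ← pow_mul]
          congr 2 <;> ring
      _ ≤ (L * q).choose (a * L) * (r ^ (a * t) * (a ^ L) ^ (a * t)) * a ^ (a * L) :=
          Nat.mul_le_mul_right _ h3
      _ = (L * q).choose (a * L) * a ^ (a * L) * (r ^ (a * t) * (a ^ L) ^ (a * t)) := by ring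
      _ ≤ (3 * q) ^ (a * L) * (r ^ (a * t) * (a ^ L) ^ (a * t)) :=
          Nat.mul_le_mul_right _ (choose_bound L q a ha1 hL)
      _ = ((3 * q) ^ L * (r ^ t * a ^ (L * t))) ^ a := by
          have e1 : (3 * q) ^ (a * L) = ((3 * q) ^ L) ^ a := by rw [← pow_mul, mul_comm a L]
          have e2 : r ^ (a * t) = (r ^ t) ^ a := by rw [← pow_mul, mul_comm a t]
          have e3 : (a ^ L) ^ (a * t) = (a ^ (L * t)) ^ a := by
            rw [← pow_mul, ← pow_mul]; congr 1; ring
          rw [e1, e2, e3, ← mul_pow, ← mul_pow]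
  have h5 := (Nat.pow_le_pow_iff_left (by omega)).1 h4
  obtain ⟨t', rfl⟩ : ∃ t', t = t' + 1 := ⟨t - 1, by omega⟩
  rw [Nat.add_sub_cancel] at h
  have h6 : q ^ (L * t') * (q ^ L * a ^ L) ≤ 3 ^ L * r ^ (t' + 1) * a ^ (L * t') * (q ^ L * a ^ L) := by
    calc q ^ (L * t') * (q ^ L * a ^ L) = q ^ (L * (t' + 1)) * a ^ L := by
          rw [mul_add, mul_one, pow_add]; ring
      _ ≤ _ := h5
      _ = 3 ^ L * r ^ (t' + 1) * a ^ (L * t') * (q ^ L * a ^ L) := by
          rw [mul_add, mul_one, pow_add a, mul_pow]; ring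
  have h7 := Nat.le_of_mul_le_mul_right h6 (Nat.mul_pos (Nat.pow_pos hq1) (Nat.pow_pos ha1))
  omega

/-- a system of sets -/
theorem sys_rnd {κ t C : ℕ} (hκ : 1 ≤ κ) (ht : 2 ≤ t) (hC : 1 ≤ C) (n L r : ℕ) (hL : 1 ≤ L)
    (hLn : L ≤ n / (14 * κ ^ 2 * t * C ^ t)) (hr : r ≤ C ^ ((t - 1) * L)) :
    Nonempty (Sys κ L n r) := by
  classical
  have hCt : 1 ≤ C ^ t := Nat.one_le_pow _ _ hC
  have hκC : 1 ≤ κ * C ^ t := Nat.mul_pos hκ hCt
  obtain ⟨q, hq⟩ : ∃ q, q = 6 * κ * C ^ t + 1 := ⟨_, rfl⟩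
  have hq7 : q ≤ 7 * κ * C ^ t := by rw [hq]; nlinarith
  have h2κ : 2 * κ ≤ q := by
    have : κ * 1 ≤ κ * C ^ t := Nat.mul_le_mul_left _ hCt
    rw [hq]
    nlinarith
  obtain ⟨t', rfl⟩ : ∃ t', t = t' + 1 := ⟨t - 1, by omega⟩
  have ht' : 1 ≤ t' := by omega
  rw [Nat.add_sub_cancel] at hr
  have hkey : 3 ^ L * r ^ (t' + 1) * (2 * κ) ^ (L * (t' + 1 - 1)) <
      q ^ (L * (t' + 1 - 1)) := by
    rw [Nat.add_sub_cancel]
    have h1 : r ^ (t' + 1) ≤ (C ^ (t' + 1)) ^ (L * t') := by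
      calc r ^ (t' + 1) ≤ (C ^ (t' * L)) ^ (t' + 1) := Nat.pow_le_pow_left hr _
        _ = (C ^ (t' + 1)) ^ (L * t') := by
          rw [← pow_mul, ← pow_mul]
          congr 1
          ring
    have h2 : 3 ^ L ≤ 3 ^ (L * t') :=
      Nat.pow_le_pow_right (by norm_num) (Nat.le_mul_of_pos_right L ht')
    calc 3 ^ L * r ^ (t' + 1) * (2 * κ) ^ (L * t')
        ≤ 3 ^ (L * t') * (C ^ (t' + 1)) ^ (L * t') * (2 * κ) ^ (L * t') :=
          Nat.mul_le_mul_right _ (Nat.mul_le_mul h2 h1)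
      _ = (6 * κ * C ^ (t' + 1)) ^ (L * t') := by
          rw [← mul_pow, ← mul_pow]
          congr 1
          ring
      _ < q ^ (L * t') := by
          refine Nat.pow_lt_pow_left (by omega) ?_
          exact Nat.mul_ne_zero (by omega) (by omega)
  obtain ⟨T, hT1, hT2⟩ := exists_family' (r := r) hκ (by omega : 1 ≤ t' + 1) hL h2κ hkey
  have h14 : 14 * κ ^ 2 * (t' + 1) * C ^ (t' + 1) * L ≤ n := by
    calc 14 * κ ^ 2 * (t' + 1) * C ^ (t' + 1) * L
        ≤ 14 * κ ^ 2 * (t' + 1) * C ^ (t' + 1) * (n / (14 * κ ^ 2 * (t' + 1) * C ^ (t' + 1))) :=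
          Nat.mul_le_mul_left _ hLn
      _ ≤ n := Nat.mul_div_le _ _
  have hm1 : 2 ≤ 2 * κ * (t' + 1) := by nlinarith
  refine ⟨⟨2 * κ * (t' + 1) - 1, L * q, T, by omega, ?_, hT1, ?_⟩⟩
  · calc (2 * κ * (t' + 1) - 1) * (L * q) ≤ 2 * κ * (t' + 1) * (L * (7 * κ * C ^ (t' + 1))) :=
          Nat.mul_le_mul (Nat.sub_le _ _) (Nat.mul_le_mul_left _ hq7)
      _ = 14 * κ ^ 2 * (t' + 1) * C ^ (t' + 1) * L := by ring
      _ ≤ n := h14
  · intro S hS a _
    refine le_trans (card_le_card ?_) (hT2 S hS)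
    intro i hi
    exact mem_filter.2 ⟨mem_univ _, (mem_filter.1 hi).2.2⟩

end Pool.Agent.Q248.BDP
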