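import Mathlib
import Pool.Agent.Q248.BDP.Pow

/-!
Multiplication by powers of a linear form.
-/

set_option autoImplicit false
set_option linter.unusedSectionVars false

namespace Pool.Agent.Q248.BDP

open MvPolynomial H350MG Pool.Agent.W431.Blk

noncomputable section

/-- injectivity from the dimensions -/
lemma inj_of_dim {K : Type} [Field K] [CharZero K] {σ : Type} [Fintype σ] [DecidableEq σ]
    {c : MvPolynomial σ K × ℕ} {l : List (MvPolynomial σ K × ℕ)} (hc : c.1 ∈ Rj K σ c.2)
    (hl : ∀ c' ∈ l, c'.1 ∈ Rj K σ c'.2) {j : ℕ} (hj : c.2 ≤ j) (hf : c.1 ≠ 0)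
    (hE : qd (c :: l) j = qd l j - qd l (j - c.2)) :
    ∀ G ∈ Rj K σ (j - c.2), c.1 * G ∈ J l j → G ∈ J l (j - c.2) := by
  have : FiniteDimensional K (J l j) := Submodule.finiteDimensional_of_le (J_le hl j)
  have : FiniteDimensional K (Jt c j) := Submodule.finiteDimensional_of_le (Jt_le hc j)
  have : FiniteDimensional K (J l (j - c.2)) := Submodule.finiteDimensional_of_le (J_le hl _)
  have hinj : Function.Injective (LinearMap.mulLeft K c.1) := by
    intro a b hab
    exact mul_left_cancel₀ hf hab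
  have h1 := Submodule.finrank_sup_add_finrank_inf_eq (J l j) (Jt c j)
  have h2 : Module.finrank K (Jt c j) = Module.finrank K (Rj K σ (j - c.2)) := by
    unfold Jt
    rw [if_pos hj]
    exact (LinearEquiv.finrank_eq (Submodule.equivMapOfInjective _ hinj _)).symm
  have h3 : Module.finrank K (J l (j - c.2)) =
      Module.finrank K ((J l (j - c.2)).map (LinearMap.mulLeft K c.1)) :=
    LinearEquiv.finrank_eq (Submodule.equivMapOfInjective _ hinj (J l (j - c.2)))
  have hle : (J l (j - c.2)).map (LinearMap.mulLeft K c.1) ≤ J l j ⊓ Jt c j := by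
    rintro _ ⟨G, hG, rfl⟩
    refine ⟨?_, ?_⟩
    · have h4 := (mem_J_iff hl (j - c.2) G).1 hG
      refine (mem_J_iff hl j _).2 ⟨Ideal.mul_mem_left _ _ h4.1, ?_⟩
      have h5 : (c.1 * G).IsHomogeneous (c.2 + (j - c.2)) :=
        IsHomogeneous.mul hc h4.2
      rwa [Nat.add_sub_cancel' hj] at h5
    · unfold Jt
      rw [if_pos hj]
      exact ⟨G, J_le hl _ hG, rfl⟩
  have : FiniteDimensional K (J l j ⊓ Jt c j : Submodule K (MvPolynomial σ K)) :=
    Submodule.finiteDimensional_of_le inf_le_left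
  have hq : (Module.finrank K (J (c :: l) j) : ℤ) =
      Module.finrank K (J l j) + Module.finrank K (Rj K σ (j - c.2)) -
        Module.finrank K (J l (j - c.2)) := by
    unfold qd at hE
    rw [finrank_Rj']
    linarith
  have h4 : Module.finrank K (J l j ⊓ Jt c j : Submodule K (MvPolynomial σ K)) =
      Module.finrank K ((J l (j - c.2)).map (LinearMap.mulLeft K c.1)) := by
    rw [← h3]
    have h5 : J (c :: l) j = J l j ⊔ Jt c j := by rw [J]
    rw [h5] at hq
    rw [h2] at h1
    omega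
  have heq := Submodule.eq_of_le_of_finrank_eq hle h4.symm
  intro G hG hGJ
  have h5 : c.1 * G ∈ J l j ⊓ Jt c j := by
    refine ⟨hGJ, ?_⟩
    unfold Jt
    rw [if_pos hj]
    exact ⟨G, hG, rfl⟩
  rw [← heq] at h5
  obtain ⟨G', hG', h6⟩ := h5
  have h7 : G' = G := hinj h6
  rw [← h7]
  exact hG'

section cons

variable {K : Type} [Field K] [CharZero K] {n r : ℕ} {d : Fin r → ℕ}

/-- the degrees with a linear form in front -/
abbrev dc (d : Fin r → ℕ) : Fin (r + 1) → ℕ := Fin.cons 1 d

/-- the point with the coefficients of a linear form in front -/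
def comb (z : Cf (Fin n) (dc d) → K) (x : Cf (Fin n) d → K) : Cf (Fin n) (dc d) → K := fun s =>
  Fin.cases (motive := fun i => {m : Fin n →₀ ℕ // Finsupp.degree m = dc d i} → K)
    (fun mm => z ⟨0, mm⟩) (fun j mm => x ⟨j, mm⟩) s.1 s.2

/-- the substitution of the coefficients of a linear form -/
def subst (z : Cf (Fin n) (dc d) → K) : Cf (Fin n) (dc d) → MvPolynomial (Cf (Fin n) d) K :=
  fun s => Fin.cases (motive := fun i => {m : Fin n →₀ ℕ // Finsupp.degree m = dc d i} →
      MvPolynomial (Cf (Fin n) d) K)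
    (fun mm => C (z ⟨0, mm⟩)) (fun j mm => X ⟨j, mm⟩) s.1 s.2

lemma eval_subst (z : Cf (Fin n) (dc d) → K) (x : Cf (Fin n) d → K)
    (Φ : MvPolynomial (Cf (Fin n) (dc d)) K) :
    eval x (bind₁ (subst z) Φ) = eval (comb z x) Φ := by
  have h1 := aeval_bind₁ (R := K) (f := x) (g := subst z) (φ := Φ)
  have h0 : ∀ {τ : Type} (y : τ → K) (p : MvPolynomial τ K), aeval y p = eval y p := by
    intro τ y p
    rfl
  rw [h0, h0] at h1
  simp only [h0] at h1
  refine Eq.trans h1 ?_
  have h2 : (fun i => (eval x) (subst z i)) = comb z x := by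
    funext ⟨i, mm⟩
    refine Fin.cases (motive := fun i => ∀ mm : {m : Fin n →₀ ℕ // Finsupp.degree m = dc d i},
      (eval x) (subst z ⟨i, mm⟩) = comb z x ⟨i, mm⟩) ?_ ?_ i mm
    · intro mm
      show (eval x) (C (z ⟨0, mm⟩)) = z ⟨0, mm⟩
      rw [eval_C]
    · intro j mm
      show (eval x) (X ⟨j, mm⟩) = x ⟨j, mm⟩
      rw [eval_X]
  rw [← h2]

lemma fc_comb_zero (z : Cf (Fin n) (dc d) → K) (x : Cf (Fin n) d → K) :
    fc (comb z x) 0 = fc z 0 := rfl

lemma fc_comb_succ (z : Cf (Fin n) (dc d) → K) (x : Cf (Fin n) d → K) (j : Fin r) :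
    fc (comb z x) j.succ = fc x j := rfl

end cons

end

end Pool.Agent.Q248.BDP
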