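import Mathlib
import Pool.Agent.Q248.BDP.Slp

/-!
Multiplication by powers of a linear form is injective in the quotients by generic forms.
-/

set_option autoImplicit false
set_option linter.unusedSectionVars false

namespace Pool.Agent.Q248.BDP

open MvPolynomial H350MG Pool.Agent.W431.Blk

noncomputable section

variable {K : Type} [Field K] [CharZero K] {n r : ℕ} {d : Fin r → ℕ}

lemma coeff_fc {r : ℕ} {d : Fin r → ℕ} (z : Cf (Fin n) d → K) (i : Fin r)
    (m : {m : Fin n →₀ ℕ // Finsupp.degree m = d i}) : (fc z i).coeff m.1 = z ⟨i, m⟩ := by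
  unfold fc
  rw [coeff_sum, Finset.sum_eq_single m]
  · rw [coeff_smul, coeff_monomial, if_pos rfl, smul_eq_mul, mul_one]
  · intro m' _ hm
    rw [coeff_smul, coeff_monomial, if_neg, smul_zero]
    intro h; exact hm (Subtype.ext h)
  · intro h; exact absurd (Finset.mem_univ _) h

/-- the coefficients of the forms behind the linear form -/
def tl (z : Cf (Fin n) (dc d) → K) : Cf (Fin n) d → K := fun s => z ⟨s.1.succ, s.2⟩

lemma comb_tl (z : Cf (Fin n) (dc d) → K) : comb z (tl z) = z := by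
  funext ⟨i, mm⟩
  refine Fin.cases (motive := fun i => ∀ mm : {m : Fin n →₀ ℕ // Finsupp.degree m = dc d i},
    comb z (tl z) ⟨i, mm⟩ = z ⟨i, mm⟩) ?_ ?_ i mm
  · intro mm
    rfl
  · intro j mm
    rfl

/-- one power -/
lemma one_power (D m s c N : ℕ) (hm : 0 < m) (hs : 1 ≤ s)
    (K : Type) [Field K] [CharZero K] (n r : ℕ) (hn : c + 1 + m * N ≤ n) (d : Fin r → ℕ)
    (T : Fin r → Finset (Fin N)) (hd : ∀ i, 1 ≤ d i) (hed : ∀ i, s * (T i).card ≤ d i)
    (hc0 : (Finset.univ.filter fun i => T i = ∅).card ≤ c)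
    (hc : ∀ S : Finset (Fin N), S.card ≤ D → ∀ a ∈ S,
      (Finset.univ.filter fun i => a ∈ T i ∧ T i ⊆ S).card ≤ m) (e : ℕ) (he : 1 ≤ e) :
    ∃ Φ : MvPolynomial (Cf (Fin n) (dc d)) K, Φ ≠ 0 ∧ ∀ z, eval z Φ ≠ 0 → ∀ k < s * (D + 1),
      qd ((fc z 0 ^ e, e) :: fList d (fun i => fc z i.succ)) k =
        E (gj (Fin n)) (e :: List.ofFn d) k := by
  classical
  obtain ⟨Φ, h0, hΦ⟩ := main_pow D m s (c + 1) N hm hs K n (r + 1) hn (dc d)
    (Fin.cons e fun _ => 1) (fun _ => s) (Fin.cons ∅ T)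
    (Fin.cases (by simp) (by simpa using hd))
    (Fin.cases (by simpa using he) (by simp)) (fun _ => hs)
    (Fin.cases (by simpa using Nat.le_mul_of_pos_right s he) (by simp))
    (Fin.cases (by simp) (by simpa using hed)) (by
      have h1 : (Finset.univ.filter fun i : Fin (r + 1) =>
          (Fin.cons ∅ T : Fin (r + 1) → Finset (Fin N)) i = ∅) ⊆
          insert 0 ((Finset.univ.filter fun i => T i = ∅).image Fin.succ) := by
        intro i hi
        have h2 := (Finset.mem_filter.1 hi).2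
        refine Fin.cases (motive := fun i =>
          (Fin.cons ∅ T : Fin (r + 1) → Finset (Fin N)) i = ∅ →
          i ∈ insert 0 ((Finset.univ.filter fun i => T i = ∅).image Fin.succ)) ?_ ?_ i h2
        · intro _
          exact Finset.mem_insert_self _ _
        · intro j hj
          rw [Fin.cons_succ] at hj
          exact Finset.mem_insert_of_mem (Finset.mem_image.2
            ⟨j, Finset.mem_filter.2 ⟨Finset.mem_univ _, hj⟩, rfl⟩)
      refine (Finset.card_le_card h1).trans ((Finset.card_insert_le _ _).trans ?_)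
      exact Nat.add_le_add_right (Finset.card_image_le.trans hc0) 1) (by
      intro S hS a ha
      have h1 : (Finset.univ.filter fun i : Fin (r + 1) =>
          a ∈ (Fin.cons ∅ T : Fin (r + 1) → Finset (Fin N)) i ∧
          (Fin.cons ∅ T : Fin (r + 1) → Finset (Fin N)) i ⊆ S) ⊆
          (Finset.univ.filter fun i => a ∈ T i ∧ T i ⊆ S).image Fin.succ := by
        intro i hi
        have h2 := (Finset.mem_filter.1 hi).2
        refine Fin.cases (motive := fun i =>
          (a ∈ (Fin.cons ∅ T : Fin (r + 1) → Finset (Fin N)) i ∧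
          (Fin.cons ∅ T : Fin (r + 1) → Finset (Fin N)) i ⊆ S) →
          i ∈ (Finset.univ.filter fun i => a ∈ T i ∧ T i ⊆ S).image Fin.succ) ?_ ?_ i h2
        · intro h
          rw [Fin.cons_zero] at h
          exact absurd h.1 (Finset.notMem_empty a)
        · intro j hj
          rw [Fin.cons_succ] at hj
          exact Finset.mem_image.2 ⟨j, Finset.mem_filter.2 ⟨Finset.mem_univ _, hj⟩, rfl⟩
      exact (Finset.card_le_card h1).trans (Finset.card_image_le.trans (hc S hS a ha)))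
  refine ⟨Φ, h0, fun z hz k hk => ?_⟩
  have h1 := hΦ z hz k hk
  have h2 : fList (fun i => dc d i * (Fin.cons e (fun _ => 1) : Fin (r + 1) → ℕ) i)
      (fun i => fc z i ^ (Fin.cons e (fun _ => 1) : Fin (r + 1) → ℕ) i) =
      (fc z 0 ^ e, e) :: fList d (fun i => fc z i.succ) := by
    unfold fList
    rw [List.ofFn_succ]
    simp only [Fin.cons_zero, Fin.cons_succ, mul_one, pow_one, one_mul]
  have h3 : (List.ofFn fun i => dc d i * (Fin.cons e (fun _ => 1) : Fin (r + 1) → ℕ) i) =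
      e :: List.ofFn d := by
    rw [List.ofFn_succ]
    simp only [Fin.cons_zero, Fin.cons_succ, mul_one, one_mul]
  rw [h2, h3] at h1
  exact h1

/-- injectivity of the multiplication by the powers of a linear form -/
theorem inj_main (D m s c N : ℕ) (hm : 0 < m) (hs : 1 ≤ s)
    (K : Type) [Field K] [CharZero K] (n r : ℕ) (hn : c + 1 + m * N ≤ n) (d : Fin r → ℕ)
    (T : Fin r → Finset (Fin N)) (hd : ∀ i, 1 ≤ d i) (hed : ∀ i, s * (T i).card ≤ d i)
    (hc0 : (Finset.univ.filter fun i => T i = ∅).card ≤ c)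
    (hc : ∀ S : Finset (Fin N), S.card ≤ D → ∀ a ∈ S,
      (Finset.univ.filter fun i => a ∈ T i ∧ T i ⊆ S).card ≤ m) :
    ∃ P : MvPolynomial (Cf (Fin n) d) K, P ≠ 0 ∧ ∀ x, eval x P ≠ 0 →
      ∃ ℓ : MvPolynomial (Fin n) K, ℓ.IsHomogeneous 1 ∧ ℓ ≠ 0 ∧
        ∀ i e : ℕ, i + e < s * (D + 1) → ∀ G : MvPolynomial (Fin n) K, G.IsHomogeneous i →
          ℓ ^ e * G ∈ J (fList d (fc x)) (i + e) → G ∈ J (fList d (fc x)) i := by
  classical
  obtain ⟨Φ0, h00, hΦ0⟩ := main D m s c N hm hs K n r (by omega) d T hd hed hc0 hc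
  choose Φ h0 hΦ using fun e : ℕ => one_power D m s c N hm hs K n r hn d T hd hed hc0 hc
    (e + 1) (Nat.succ_le_succ (Nat.zero_le e))
  obtain ⟨Ψ, hΨ⟩ : ∃ Ψ, Ψ = ∏ e ∈ Finset.range (s * (D + 1)), Φ e := ⟨_, rfl⟩
  have hΨ0 : Ψ ≠ 0 := by
    rw [hΨ]
    exact Finset.prod_ne_zero_iff.2 fun e _ => h0 e
  let v : Fin n := ⟨0, by omega⟩
  let sv : Cf (Fin n) (dc d) := ⟨0, ⟨Finsupp.single v 1, by
    rw [Finsupp.degree_single]; rfl⟩⟩
  have hne : Ψ * X sv ≠ 0 := mul_ne_zero hΨ0 (X_ne_zero _)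
  obtain ⟨z, hz⟩ : ∃ z, eval z (Ψ * X sv) ≠ 0 := by
    by_contra hcon
    push Not at hcon
    apply hne
    refine MvPolynomial.funext fun z => ?_
    rw [hcon z, map_zero]
  rw [map_mul, eval_X] at hz
  have hz1 := left_ne_zero_of_mul hz
  have hz2 := right_ne_zero_of_mul hz
  refine ⟨bind₁ (subst z) Ψ * Φ0, mul_ne_zero ?_ h00, ?_⟩
  · intro h
    apply hz1
    have h1 := eval_subst z (tl z) Ψ
    rw [comb_tl, h, map_zero] at h1
    exact h1.symm
  intro x hx
  rw [map_mul, eval_subst] at hx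
  have hx1 := left_ne_zero_of_mul hx
  have hx2 := right_ne_zero_of_mul hx
  have hhom : (fc z 0).IsHomogeneous 1 := fc_hom z 0
  have hl0 : fc z 0 ≠ 0 := by
    intro h
    apply hz2
    have h1 := coeff_fc z 0 sv.2
    rw [h, coeff_zero] at h1
    exact h1.symm
  refine ⟨fc z 0, hhom, hl0, ?_⟩
  intro i e hie G hG hGJ
  rcases Nat.eq_zero_or_pos e with rfl | he
  · rw [pow_zero, one_mul, add_zero] at hGJ
    exact hGJ
  obtain ⟨e, rfl⟩ : ∃ e', e = e' + 1 := ⟨e - 1, by omega⟩
  have h1 : eval (comb z x) (Φ e) ≠ 0 := by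
    intro h
    apply hx1
    rw [hΨ, map_prod]
    exact Finset.prod_eq_zero (Finset.mem_range.2 (by omega)) h
  have h2 := hΦ e _ h1 (i + (e + 1)) hie
  have h3 := hΦ0 x hx2 (i + (e + 1)) hie
  have h4 := hΦ0 x hx2 i (by omega)
  have h5 : (fun i : Fin r => fc (comb z x) i.succ) = fc x :=
    funext fun j => fc_comb_succ z x j
  rw [h5, fc_comb_zero] at h2
  have h6 : ∀ c ∈ fList d (fc x), c.1 ∈ Rj K (Fin n) c.2 := by
    intro c hc
    obtain ⟨i, rfl⟩ := mem_fList.1 hc
    exact fc_hom x i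
  have h7 : (fc z 0 ^ (e + 1)).IsHomogeneous (e + 1) := by
    have := hhom.pow (e + 1)
    rwa [one_mul] at this
  have key := inj_of_dim (c := (fc z 0 ^ (e + 1), e + 1)) (l := fList d (fc x)) h7 h6
    (j := i + (e + 1)) (by simp) (pow_ne_zero _ hl0) (by
      rw [h2]
      simp only [E]
      rw [if_pos (by omega), Nat.add_sub_cancel, h3, h4])
  simp only [Nat.add_sub_cancel] at key
  exact key G hG hGJ

end

end Pool.Agent.Q248.BDP
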